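import Pool.Agent.Helper63_CNS.Glue

/-!
# Components of the graphs of the gluing
-/

set_option autoImplicit false

namespace Pool.Agent.CNS

theorem exists_atom_le {S : AddSubmonoid ℕ} {n : ℕ} (hn : n ∈ S) (hn0 : n ≠ 0) :
    ∃ a ∈ atoms S, ∃ s ∈ S, a + s = n := by
  induction n using Nat.strong_induction_on with
  | _ n ih =>
    by_cases h : n ∈ atoms S
    · exact ⟨n, h, 0, S.zero_mem, add_zero n⟩
    · have h2 : ∃ x ∈ S, ∃ y ∈ S, x + y = n ∧ x ≠ 0 ∧ y ≠ 0 := by
        by_contra h3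
        push Not at h3
        apply h
        refine ⟨hn, hn0, fun x hx y hy hxy => ?_⟩
        by_cases hx0 : x = 0
        · left; exact hx0
        · right; exact h3 x hx y hy hxy hx0
      obtain ⟨x, hx, y, hy, hxy, hx0, hy0⟩ := h2
      obtain ⟨a, ha, s, hs, has⟩ := ih x (by omega) hx hx0
      exact ⟨a, ha, s + y, S.add_mem hs hy, by omega⟩

instance finite_vert (S : AddSubmonoid ℕ) (b : ℕ) : Finite (Vert S b) := by
  have h : ∀ v : Vert S b, v.1 < b + 1 := by
    intro v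
    obtain ⟨s, _, h⟩ := v.2.2
    omega
  exact Finite.of_injective (fun v : Vert S b => (⟨v.1, h v⟩ : Fin (b + 1))) fun v w hvw => by
    apply Subtype.ext
    exact congrArg Fin.val hvw

instance finite_comp (S : AddSubmonoid ℕ) (b : ℕ) : Finite (nabla S b).ConnectedComponent :=
  Quot.finite _

theorem reach_const {V X : Type*} {G : SimpleGraph V} (f : V → X)
    (h : ∀ u v, G.Adj u v → f u = f v) : ∀ u v, G.Reachable u v → f u = f v := by
  rintro u v ⟨p⟩
  induction p with
  | nil => rfl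
  | cons hadj _ ih => exact (h _ _ hadj).trans ih

theorem card_comp {V X : Type*} {G : SimpleGraph V} (f : V → X)
    (h : ∀ u v, G.Adj u v → f u = f v) (hs : Function.Surjective f)
    (hi : ∀ u v, f u = f v → G.Reachable u v) : Nat.card G.ConnectedComponent = Nat.card X := by
  refine Nat.card_eq_of_bijective (Quot.lift f fun u v huv => reach_const f h u v huv) ⟨?_, ?_⟩
  · intro a b
    induction a using Quot.ind with
    | _ u =>
      induction b using Quot.ind with
      | _ v =>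
        intro hab
        exact Quot.sound (hi u v hab)
  · intro x
    obtain ⟨u, hu⟩ := hs x
    exact ⟨Quot.mk _ u, hu⟩

theorem reach_of_sum {S : AddSubmonoid ℕ} {b : ℕ} (a a' : Vert S b)
    (h : ∃ s ∈ S, a.1 + a'.1 + s = b) : (nabla S b).Reachable a a' := by
  by_cases haa : a = a'
  · rw [haa]
  · exact SimpleGraph.Adj.reachable ⟨haa, h⟩

section

variable {m y : ℕ} {S : AddSubmonoid ℕ} (H : GH m y S)

include H

/-- the vertex `m a` -/
def GH.vm {z : ℕ} (a : Vert S z) : Vert (glue m y S) (m * z) :=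
  ⟨m * a.1, H.atom_mul.2 a.2.1, by
    obtain ⟨s, hs, h⟩ := a.2.2
    exact ⟨m * s, H.mul_mem.2 hs, (by ring : m * a.1 + m * s = m * (a.1 + s)).trans
      (congrArg (fun n => m * n) h)⟩⟩

theorem GH.vm_val {z : ℕ} (a : Vert S z) : (H.vm a).1 = m * a.1 := rfl

theorem GH.vert_cases {z : ℕ} (v : Vert (glue m y S) (m * z)) :
    v.1 = y ∨ ∃ a : Vert S z, v = H.vm a := by
  rcases H.atom_cases v.2.1 with h | ⟨a, ha, h⟩
  · left; exact h
  · right
    obtain ⟨s, hs, h2⟩ := v.2.2
    rw [h] at h2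
    obtain ⟨t, ht, k, htk⟩ := hs
    have h3 : m * (a + t) + y * k = m * z := by rw [← h2, ← htk]; ring
    obtain ⟨q, hq, hq2⟩ := H.mul_eq h3
    refine ⟨⟨a, ha, t + y * q, S.add_mem ht (CNS.mem_mul H.hy q), by rw [hq2]; ring⟩, ?_⟩
    apply Subtype.ext
    exact h

theorem GH.adj_vm {z : ℕ} (a a' : Vert S z) (h : (nabla (glue m y S) (m * z)).Adj (H.vm a) (H.vm a')) :
    (nabla S z).Adj a a' := by
  obtain ⟨h1, s, ⟨t, ht, k, htk⟩, h2⟩ := h
  refine ⟨fun h3 => h1 (by rw [h3]), ?_⟩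
  rw [H.vm_val, H.vm_val] at h2
  have h3 : m * (a.1 + a'.1 + t) + y * k = m * z := by rw [← h2, ← htk]; ring
  obtain ⟨q, hq, hq2⟩ := H.mul_eq h3
  exact ⟨t + y * q, S.add_mem ht (CNS.mem_mul H.hy q), by omega⟩

theorem GH.vm_inj {z : ℕ} {a a' : Vert S z} (h : H.vm a = H.vm a') : a = a' := by
  apply Subtype.ext
  have h1 : (H.vm a).1 = (H.vm a').1 := by rw [h]
  rw [H.vm_val, H.vm_val] at h1
  exact Nat.eq_of_mul_eq_mul_left (Nat.pos_of_ne_zero H.m0) h1

theorem GH.vm_ne_y {z : ℕ} (a : Vert S z) : (H.vm a).1 ≠ y := by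
  rw [H.vm_val]
  intro h
  exact H.ndvd ⟨a.1, h.symm⟩

theorem GH.reach_vm {z : ℕ} (a a' : Vert S z) (h : (nabla S z).Reachable a a') :
    (nabla (glue m y S) (m * z)).Reachable (H.vm a) (H.vm a') := by
  obtain ⟨p⟩ := h
  induction p with
  | nil => exact SimpleGraph.Reachable.refl _
  | cons hadj _ ih =>
    refine SimpleGraph.Reachable.trans (SimpleGraph.Adj.reachable ?_) ih
    obtain ⟨h1, s, hs, h2⟩ := hadj
    refine ⟨fun h3 => h1 (H.vm_inj h3), m * s, H.mul_mem.2 hs, ?_⟩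
    rw [H.vm_val, H.vm_val]
    have h3 : ∀ a b c : ℕ, m * a + m * b + m * c = m * (a + b + c) := fun a b c => by ring
    exact (h3 _ _ _).trans (congrArg (fun n => m * n) h2)

theorem GH.y_sum {z a : ℕ} (h : ∃ s ∈ glue m y S, y + m * a + s = m * z) :
    ∃ t ∈ S, y + a + t = z := by
  obtain ⟨s, ⟨t, ht, k, htk⟩, h2⟩ := h
  have h3 : m * (a + t) + y * (k + 1) = m * z := by rw [← h2, ← htk]; ring
  obtain ⟨q, hq, hq2⟩ := H.mul_eq h3
  obtain ⟨r, rfl⟩ : ∃ r, q = r + 1 := by
    rcases Nat.eq_zero_or_pos q with rfl | hq0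
    · rw [mul_zero] at hq
      omega
    · exact ⟨q - 1, by omega⟩
  exact ⟨t + y * r, S.add_mem ht (CNS.mem_mul H.hy r), by rw [hq2]; ring⟩

theorem GH.sum_y {z a : ℕ} (h : ∃ t ∈ S, y + a + t = z) :
    ∃ s ∈ glue m y S, y + m * a + s = m * z := by
  obtain ⟨t, ht, rfl⟩ := h
  refine ⟨m * t + y * (m - 1), ⟨t, ht, m - 1, rfl⟩, ?_⟩
  obtain ⟨r, hr⟩ : ∃ r, m = r + 1 := ⟨m - 1, by have := H.m0; omega⟩
  rw [hr, Nat.add_sub_cancel]
  ring

theorem GH.vert_y {z : ℕ} (v : Vert (glue m y S) (m * z)) (hv : v.1 = y) : ∃ t ∈ S, y + t = z := by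
  obtain ⟨s, hs, h⟩ := v.2.2
  rw [hv] at h
  have h2 := H.y_sum (z := z) (a := 0) ⟨s, hs, by rw [mul_zero, add_zero]; exact h⟩
  rwa [add_zero] at h2

theorem GH.adj_y {z : ℕ} (v : Vert (glue m y S) (m * z)) (hv : v.1 = y) (a : Vert S z)
    (h : (nabla (glue m y S) (m * z)).Adj v (H.vm a)) : ∃ t ∈ S, y + a.1 + t = z := by
  obtain ⟨-, h2⟩ := h
  rw [hv, H.vm_val] at h2
  exact H.y_sum h2

open Classical in
/-- the component of a vertex -/
noncomputable def GH.cf {z : ℕ} {X : Type} (i : (nabla S z).ConnectedComponent → X) (c0 : X)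
    (v : Vert (glue m y S) (m * z)) : X :=
  if h : ∃ a : Vert S z, v = H.vm a then i ((nabla S z).connectedComponentMk h.choose) else c0

theorem GH.cf_vm {z : ℕ} {X : Type} (i : (nabla S z).ConnectedComponent → X) (c0 : X)
    (a : Vert S z) : H.cf i c0 (H.vm a) = i ((nabla S z).connectedComponentMk a) := by
  have h : ∃ a' : Vert S z, H.vm a = H.vm a' := ⟨a, rfl⟩
  unfold GH.cf
  rw [dif_pos h, ← H.vm_inj h.choose_spec]

theorem GH.cf_y {z : ℕ} {X : Type} (i : (nabla S z).ConnectedComponent → X) (c0 : X)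
    (v : Vert (glue m y S) (m * z)) (hv : v.1 = y) : H.cf i c0 v = c0 := by
  unfold GH.cf
  rw [dif_neg]
  rintro ⟨a, rfl⟩
  exact H.vm_ne_y a hv

/-- the vertices other than `y` keep their components -/
theorem GH.nc_ne {z : ℕ} (hz : z ∈ S) (hz0 : z ≠ 0) (hzy : z ≠ y) :
    nc (glue m y S) (m * z) = nc S z := by
  unfold nc
  by_cases h : ∃ t ∈ S, y + t = z
  · obtain ⟨t, ht, hyt⟩ := h
    have ht0 : t ≠ 0 := by
      rintro rfl
      exact hzy (by omega)
    obtain ⟨a0, ha0, s, hs, has⟩ := exists_atom_le ht ht0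
    obtain ⟨a2, ha2, s2, hs2, has2⟩ := exists_atom_le H.hy H.hy0
    have hv0 : ∃ s ∈ S, a0 + s = z := ⟨s + y, S.add_mem hs H.hy, by omega⟩
    have hv2 : ∃ s ∈ S, a2 + s = z := ⟨s2 + t, S.add_mem hs2 ht, by omega⟩
    obtain ⟨v0, hv0'⟩ : ∃ v0 : Vert S z, v0.1 = a0 := ⟨⟨a0, ha0, hv0⟩, rfl⟩
    obtain ⟨v2, hv2'⟩ : ∃ v2 : Vert S z, v2.1 = a2 := ⟨⟨a2, ha2, hv2⟩, rfl⟩
    have h02 : (nabla S z).Reachable v0 v2 :=
      reach_of_sum v0 v2 ⟨s + s2, S.add_mem hs hs2, by rw [hv0', hv2']; omega⟩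
    -- the vertices adjacent to `y`
    have hadj : ∀ (v : Vert (glue m y S) (m * z)) (hv : v.1 = y) (a : Vert S z),
        (nabla (glue m y S) (m * z)).Adj v (H.vm a) → (nabla S z).Reachable a v0 := by
      intro v hv a h
      obtain ⟨t', ht', h2⟩ := H.adj_y v hv a h
      exact (reach_of_sum a v2 ⟨t' + s2, S.add_mem ht' hs2, by rw [hv2']; omega⟩).trans h02.symm
    have hy0 : ∃ v : Vert (glue m y S) (m * z), v.1 = y := by
      obtain ⟨s', hs', h2⟩ := H.sum_y (z := z) (a := 0) ⟨t, ht, by omega⟩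
      rw [mul_zero, add_zero] at h2
      exact ⟨⟨y, H.atom_y, s', hs', h2⟩, rfl⟩
    have hyv : ∀ v : Vert (glue m y S) (m * z), v.1 = y →
        (nabla (glue m y S) (m * z)).Reachable v (H.vm v0) := by
      intro v hv
      refine SimpleGraph.Adj.reachable ⟨?_, ?_⟩
      · intro h
        apply H.vm_ne_y v0
        rw [← h, hv]
      · rw [hv, H.vm_val, hv0']
        exact H.sum_y ⟨s, hs, by omega⟩
    refine card_comp (H.cf id ((nabla S z).connectedComponentMk v0)) ?_ ?_ ?_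
    · intro u v huv
      rcases H.vert_cases u with hu | ⟨a, rfl⟩
      · rcases H.vert_cases v with hv | ⟨a', rfl⟩
        · exact absurd (Subtype.ext (hu.trans hv.symm)) huv.1
        · rw [H.cf_y _ _ u hu, H.cf_vm]
          exact (Quot.sound (hadj u hu a' huv)).symm
      · rcases H.vert_cases v with hv | ⟨a', rfl⟩
        · rw [H.cf_y _ _ v hv, H.cf_vm]
          exact Quot.sound (hadj v hv a huv.symm)
        · rw [H.cf_vm, H.cf_vm]
          exact Quot.sound (H.adj_vm a a' huv).reachable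
    · intro c
      induction c using Quot.ind with
      | _ a => exact ⟨H.vm a, H.cf_vm _ _ a⟩
    · intro u v huv
      rcases H.vert_cases u with hu | ⟨a, rfl⟩
      · rcases H.vert_cases v with hv | ⟨a', rfl⟩
        · rw [show u = v from Subtype.ext (hu.trans hv.symm)]
        · rw [H.cf_y _ _ u hu, H.cf_vm] at huv
          exact (hyv u hu).trans (H.reach_vm _ _ (SimpleGraph.ConnectedComponent.exact huv))
      · rcases H.vert_cases v with hv | ⟨a', rfl⟩
        · rw [H.cf_y _ _ v hv, H.cf_vm] at huv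
          exact (H.reach_vm _ _ (SimpleGraph.ConnectedComponent.exact huv)).trans (hyv v hv).symm
        · rw [H.cf_vm, H.cf_vm] at huv
          exact H.reach_vm _ _ (SimpleGraph.ConnectedComponent.exact huv)
  · have hno : ∀ v : Vert (glue m y S) (m * z), v.1 ≠ y := fun v hv => h (H.vert_y v hv)
    obtain ⟨a0, ha0, s, hs, has⟩ := exists_atom_le hz hz0
    obtain ⟨v0, hv0'⟩ : ∃ v0 : Vert S z, v0.1 = a0 := ⟨⟨a0, ha0, s, hs, has⟩, rfl⟩
    refine card_comp (H.cf id ((nabla S z).connectedComponentMk v0)) ?_ ?_ ?_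
    · intro u v huv
      rcases H.vert_cases u with hu | ⟨a, rfl⟩
      · exact absurd hu (hno u)
      · rcases H.vert_cases v with hv | ⟨a', rfl⟩
        · exact absurd hv (hno v)
        · rw [H.cf_vm, H.cf_vm]
          exact Quot.sound (H.adj_vm a a' huv).reachable
    · intro c
      induction c using Quot.ind with
      | _ a => exact ⟨H.vm a, H.cf_vm _ _ a⟩
    · intro u v huv
      rcases H.vert_cases u with hu | ⟨a, rfl⟩
      · exact absurd hu (hno u)
      · rcases H.vert_cases v with hv | ⟨a', rfl⟩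
        · exact absurd hv (hno v)
        · rw [H.cf_vm, H.cf_vm] at huv
          exact H.reach_vm _ _ (SimpleGraph.ConnectedComponent.exact huv)

/-- the new Betti element -/
theorem GH.nc_y : nc (glue m y S) (m * y) = nc S y + 1 := by
  unfold nc
  rw [← Finite.card_option]
  have hadj : ∀ (v : Vert (glue m y S) (m * y)) (hv : v.1 = y) (a : Vert S y),
      ¬ (nabla (glue m y S) (m * y)).Adj v (H.vm a) := by
    intro v hv a h
    obtain ⟨t', ht', h2⟩ := H.adj_y v hv a h
    have h3 := a.2.1.2.1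
    omega
  refine card_comp (H.cf some none) ?_ ?_ ?_
  · intro u v huv
    rcases H.vert_cases u with hu | ⟨a, rfl⟩
    · rcases H.vert_cases v with hv | ⟨a', rfl⟩
      · exact absurd (Subtype.ext (hu.trans hv.symm)) huv.1
      · exact absurd huv (hadj u hu a')
    · rcases H.vert_cases v with hv | ⟨a', rfl⟩
      · exact absurd huv.symm (hadj v hv a)
      · rw [H.cf_vm, H.cf_vm]
        congr 1
        exact Quot.sound (H.adj_vm a a' huv).reachable
  · intro c
    cases c with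
    | none =>
      obtain ⟨s', hs', h2⟩ := H.sum_y (z := y) (a := 0) ⟨0, S.zero_mem, by omega⟩
      rw [mul_zero, add_zero] at h2
      exact ⟨⟨y, H.atom_y, s', hs', h2⟩, H.cf_y _ _ _ rfl⟩
    | some c =>
      induction c using Quot.ind with
      | _ a => exact ⟨H.vm a, H.cf_vm _ _ a⟩
  · intro u v huv
    rcases H.vert_cases u with hu | ⟨a, rfl⟩
    · rcases H.vert_cases v with hv | ⟨a', rfl⟩
      · rw [show u = v from Subtype.ext (hu.trans hv.symm)]
      · rw [H.cf_y _ _ u hu, H.cf_vm] at huv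
        exact absurd huv (by simp)
    · rcases H.vert_cases v with hv | ⟨a', rfl⟩
      · rw [H.cf_y _ _ v hv, H.cf_vm] at huv
        exact absurd huv (by simp)
      · rw [H.cf_vm, H.cf_vm] at huv
        exact H.reach_vm _ _ (SimpleGraph.ConnectedComponent.exact (Option.some.inj huv))

end

end Pool.Agent.CNS
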