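import Pool.Agent.Helper63_CNS.Sup

/-!
# Cyclotomic polynomials and finite products
-/

set_option autoImplicit false

namespace Pool.Agent.CNS

open PowerSeries

/-! ### The semigroup polynomial -/

theorem coe_sum_poly {ι : Type*} (s : Finset ι) (f : ι → Polynomial ℤ) :
    ((∑ i ∈ s, f i : Polynomial ℤ) : ℤ⟦X⟧) = ∑ i ∈ s, (f i : ℤ⟦X⟧) := by
  classical
  induction s using Finset.induction_on with
  | empty => rw [Finset.sum_empty, Finset.sum_empty, Polynomial.coe_zero]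
  | insert a s ha ih => rw [Finset.sum_insert ha, Finset.sum_insert ha, Polynomial.coe_add, ih]

theorem coe_prod_poly {ι : Type*} (s : Finset ι) (f : ι → Polynomial ℤ) :
    ((∏ i ∈ s, f i : Polynomial ℤ) : ℤ⟦X⟧) = ∏ i ∈ s, (f i : ℤ⟦X⟧) := by
  classical
  induction s using Finset.induction_on with
  | empty => rw [Finset.prod_empty, Finset.prod_empty, Polynomial.coe_one]
  | insert a s ha ih => rw [Finset.prod_insert ha, Finset.prod_insert ha, Polynomial.coe_mul, ih]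

theorem exists_poly {S : AddSubmonoid ℕ} (hS : NumSgp S) :
    ∃ p : Polynomial ℤ, (p : ℤ⟦X⟧) = pol S ∧ p.eval 1 = 1 := by
  classical
  obtain ⟨G, hG⟩ : ∃ G : Finset ℕ, ∀ n, n ∈ G ↔ n ∉ S := by
    refine ⟨hS.toFinset, fun n => ?_⟩
    rw [Set.Finite.mem_toFinset]
    exact Iff.rfl
  refine ⟨1 - (1 - Polynomial.X) * ∑ g ∈ G, Polynomial.X ^ g, ?_, ?_⟩
  · have h1 : hil S + ∑ g ∈ G, (X : ℤ⟦X⟧) ^ g = PowerSeries.mk 1 := by
      ext n
      rw [map_add, map_sum, coeff_mk, Pi.one_apply]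
      simp only [coeff_X_pow]
      rw [Finset.sum_ite_eq]
      by_cases h : n ∈ S
      · rw [coeff_hil_mem h, if_neg (fun h2 => (hG n).1 h2 h), add_zero]
      · rw [coeff_hil_nmem h, if_pos ((hG n).2 h), zero_add]
    have h2 : (PowerSeries.mk 1 : ℤ⟦X⟧) * (1 - X) = 1 := PowerSeries.mk_one_mul_one_sub_eq_one ℤ
    rw [← h1] at h2
    have h3 : ((∑ g ∈ G, Polynomial.X ^ g : Polynomial ℤ) : ℤ⟦X⟧) = ∑ g ∈ G, (X : ℤ⟦X⟧) ^ g := by
      rw [coe_sum_poly]
      refine Finset.sum_congr rfl fun g _ => ?_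
      rw [Polynomial.coe_pow, Polynomial.coe_X]
    rw [Polynomial.coe_sub, Polynomial.coe_mul, Polynomial.coe_sub, Polynomial.coe_one,
      Polynomial.coe_X, h3]
    unfold pol
    linear_combination (-1 : ℤ⟦X⟧) * h2
  · simp

/-! ### Polynomials for nonnegative exponents -/

/-- `∏ (1 - X ^ j) ^ (f j)`, `j ≠ 0` -/
noncomputable def Qp (f : ℕ →₀ ℕ) : Polynomial ℤ :=
  f.prod fun j k => (if j = 0 then 1 else 1 - Polynomial.X ^ j) ^ k

/-- natural numbers as integers -/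
noncomputable def toZ (f : ℕ →₀ ℕ) : ℕ →₀ ℤ :=
  Finsupp.mapRange (Nat.cast : ℕ → ℤ) Nat.cast_zero f

theorem toZ_apply (f : ℕ →₀ ℕ) (j : ℕ) : toZ f j = ((f j : ℕ) : ℤ) := Finsupp.mapRange_apply

theorem coe_fac (j : ℕ) : (((if j = 0 then 1 else 1 - Polynomial.X ^ j : Polynomial ℤ)) : ℤ⟦X⟧) =
    ((un j : (ℤ⟦X⟧)ˣ) : ℤ⟦X⟧) := by
  by_cases hj : j = 0
  · subst hj
    rw [if_pos rfl, un_zero, Units.val_one, Polynomial.coe_one]
  · rw [if_neg hj, un_val hj]
    push_cast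
    rfl

theorem coe_Qp (f : ℕ →₀ ℕ) : ((Qp f : Polynomial ℤ) : ℤ⟦X⟧) = ((E (toZ f) : (ℤ⟦X⟧)ˣ) : ℤ⟦X⟧) := by
  have h1 : E (toZ f) = ∏ j ∈ f.support, un j ^ (toZ f) j := by
    refine E_eq_prod _ _ fun j hj => ?_
    rw [Finsupp.mem_support_iff] at hj ⊢
    intro h
    apply hj
    rw [toZ_apply, h]
    rfl
  rw [h1, Units.coe_prod]
  unfold Qp Finsupp.prod
  have h2 : ∀ s : Finset ℕ, ((∏ j ∈ s, ((if j = 0 then 1 else 1 - Polynomial.X ^ j :
      Polynomial ℤ)) ^ f j : Polynomial ℤ) : ℤ⟦X⟧) =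
      ∏ j ∈ s, ((((if j = 0 then 1 else 1 - Polynomial.X ^ j : Polynomial ℤ)) : ℤ⟦X⟧)) ^ f j := by
    classical
    intro s
    induction s using Finset.induction_on with
    | empty => rw [Finset.prod_empty, Finset.prod_empty, Polynomial.coe_one]
    | insert a s ha ih =>
      rw [Finset.prod_insert ha, Finset.prod_insert ha, Polynomial.coe_mul, Polynomial.coe_pow, ih]
  rw [h2]
  refine Finset.prod_congr rfl fun j _ => ?_
  rw [coe_fac, toZ_apply, zpow_natCast, Units.val_pow_eq_pow_val]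

/-- positive and negative parts -/
theorem exists_parts (e : ℕ →₀ ℤ) : ∃ f g : ℕ →₀ ℕ, e = toZ f - toZ g ∧
    ∀ j, (e j = 0 → f j = 0 ∧ g j = 0) := by
  refine ⟨e.mapRange Int.toNat rfl, (-e).mapRange Int.toNat rfl, ?_, fun j hj => ?_⟩
  · ext j
    rw [Finsupp.sub_apply, toZ_apply, toZ_apply, Finsupp.mapRange_apply, Finsupp.mapRange_apply,
      Finsupp.neg_apply]
    omega
  · rw [Finsupp.mapRange_apply, Finsupp.mapRange_apply, Finsupp.neg_apply, hj]
    exact ⟨rfl, rfl⟩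

/-- the identity of polynomials -/
theorem poly_eq {p : Polynomial ℤ} {e : ℕ →₀ ℤ} {f g : ℕ →₀ ℕ}
    (hp : (p : ℤ⟦X⟧) = ((E e : (ℤ⟦X⟧)ˣ) : ℤ⟦X⟧)) (h : e = toZ f - toZ g) : p * Qp g = Qp f := by
  apply Polynomial.coe_injective
  rw [Polynomial.coe_mul, hp, coe_Qp, coe_Qp, ← Units.val_mul]
  congr 1
  rw [h, E_sub, div_mul_cancel]

/-- the number of factors -/
def Nf (f : ℕ →₀ ℕ) : ℕ := f.sum fun _ k => k

theorem Qp_factor (f : ℕ →₀ ℕ) (h0 : f 0 = 0) : ∃ G : Polynomial ℤ, G.eval 1 ≠ 0 ∧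
    Qp f = (1 - Polynomial.X) ^ Nf f * G := by
  refine ⟨∏ j ∈ f.support, (∑ i ∈ Finset.range j, Polynomial.X ^ i) ^ f j, ?_, ?_⟩
  · rw [Polynomial.eval_prod, Finset.prod_ne_zero_iff]
    intro j hj
    have hj0 : j ≠ 0 := by
      rintro rfl
      exact (Finsupp.mem_support_iff.1 hj) h0
    rw [Polynomial.eval_pow, Polynomial.eval_finsetSum]
    refine pow_ne_zero _ ?_
    simp only [Polynomial.eval_pow, Polynomial.eval_X, one_pow, Finset.sum_const, Finset.card_range,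
      nsmul_eq_mul, mul_one]
    exact_mod_cast hj0
  · unfold Qp Nf Finsupp.prod Finsupp.sum
    rw [← Finset.prod_pow_eq_pow_sum, ← Finset.prod_mul_distrib]
    refine Finset.prod_congr rfl fun j hj => ?_
    have hj0 : j ≠ 0 := by
      rintro rfl
      exact (Finsupp.mem_support_iff.1 hj) h0
    show (if j = 0 then (1 : Polynomial ℤ) else 1 - Polynomial.X ^ j) ^ f j = _
    rw [if_neg hj0, ← mul_pow, mul_neg_geom_sum]

/-- the sum of the exponents -/
theorem sum_exp {S : AddSubmonoid ℕ} (hS : NumSgp S) {e : ℕ →₀ ℤ} (h0 : e 0 = 0)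
    (h : pol S = ((E e : (ℤ⟦X⟧)ˣ) : ℤ⟦X⟧)) : (e.sum fun _ k => k) = 0 := by
  obtain ⟨p, hp, hp1⟩ := exists_poly hS
  obtain ⟨f, g, hfg, hfg0⟩ := exists_parts e
  have h1 := poly_eq (hp.trans h) hfg
  obtain ⟨F, hF, hF2⟩ := Qp_factor f (hfg0 0 h0).1
  obtain ⟨G, hG, hG2⟩ := Qp_factor g (hfg0 0 h0).2
  rw [hF2, hG2] at h1
  have hx : (1 - Polynomial.X : Polynomial ℤ) ≠ 0 := by
    intro h2
    have h3 := congrArg (Polynomial.eval 0) h2
    simp at h3
  have hN : Nf f = Nf g := by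
    rcases lt_trichotomy (Nf f) (Nf g) with h2 | h2 | h2
    · obtain ⟨d, hd⟩ : ∃ d, Nf g = Nf f + (d + 1) := ⟨Nf g - Nf f - 1, by omega⟩
      rw [hd, pow_add] at h1
      have h3 : (1 - Polynomial.X : Polynomial ℤ) ^ Nf f * (p * ((1 - Polynomial.X) ^ (d + 1) * G)) =
          (1 - Polynomial.X) ^ Nf f * F := by
        linear_combination h1
      have h4 := mul_left_cancel₀ (pow_ne_zero _ hx) h3
      exfalso
      apply hF
      rw [← h4]
      simp
    · exact h2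
    · obtain ⟨d, hd⟩ : ∃ d, Nf f = Nf g + (d + 1) := ⟨Nf f - Nf g - 1, by omega⟩
      rw [hd, pow_add] at h1
      have h3 : (1 - Polynomial.X : Polynomial ℤ) ^ Nf g * (p * G) =
          (1 - Polynomial.X) ^ Nf g * ((1 - Polynomial.X) ^ (d + 1) * F) := by
        linear_combination h1
      have h4 := mul_left_cancel₀ (pow_ne_zero _ hx) h3
      exfalso
      have h5 := congrArg (Polynomial.eval 1) h4
      rw [Polynomial.eval_mul, hp1, one_mul] at h5
      apply hG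
      rw [h5]
      simp
  have hs : ∀ f : ℕ →₀ ℕ, ((toZ f).sum fun _ k => k) = (Nf f : ℤ) := by
    intro f
    unfold Nf Finsupp.sum
    rw [Nat.cast_sum]
    have h6 : ∀ s : Finset ℕ, ∑ x ∈ s, ((f x : ℕ) : ℤ) = ∑ x ∈ s, toZ f x := fun s =>
      Finset.sum_congr rfl fun x _ => (toZ_apply f x).symm
    rw [h6]
    refine Finset.sum_subset (fun j hj => ?_) fun j _ hj => ?_
    · rw [Finsupp.mem_support_iff] at hj ⊢
      intro h2
      apply hj
      rw [toZ_apply, h2]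
      rfl
    · exact Finsupp.notMem_support_iff.1 hj
  rw [hfg, Finsupp.sum_sub_index (fun _ _ _ => rfl), hs, hs, hN, sub_self]

/-! ### Cyclotomic implies finite -/

theorem isUnit_cyc (n : ℕ) (hn : 0 < n) :
    IsUnit ((Polynomial.cyclotomic n ℤ : Polynomial ℤ) : ℤ⟦X⟧) := by
  rw [PowerSeries.isUnit_iff_constantCoeff]
  rw [Polynomial.constantCoeff_coe]
  by_cases h1 : n = 1
  · subst h1
    rw [Polynomial.cyclotomic_one]
    simp
  · rw [Polynomial.cyclotomic_coeff_zero ℤ (by omega)]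
    exact isUnit_one

/-- the units `± E e` -/
def Hs : Subgroup (ℤ⟦X⟧)ˣ where
  carrier := {u | ∃ e : ℕ →₀ ℤ, u = E e ∨ u = -E e}
  one_mem' := ⟨0, Or.inl E_zero.symm⟩
  mul_mem' {a b} ha hb := by
    obtain ⟨e, he⟩ := ha
    obtain ⟨f, hf⟩ := hb
    refine ⟨e + f, ?_⟩
    rw [E_add]
    rcases he with rfl | rfl <;> rcases hf with rfl | rfl
    · left; rfl
    · right; rw [mul_neg]
    · right; rw [neg_mul]
    · left; rw [neg_mul_neg]
  inv_mem' {a} ha := by
    obtain ⟨e, he⟩ := ha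
    refine ⟨-e, ?_⟩
    rw [E_neg]
    rcases he with rfl | rfl
    · left; rfl
    · right
      rw [inv_neg]

open Classical in
/-- the cyclotomic polynomials as units -/
noncomputable def vc (n : ℕ) : (ℤ⟦X⟧)ˣ := if h : 0 < n then (isUnit_cyc n h).unit else 1

theorem vc_val {n : ℕ} (hn : 0 < n) : ((vc n : (ℤ⟦X⟧)ˣ) : ℤ⟦X⟧) =
    ((Polynomial.cyclotomic n ℤ : Polynomial ℤ) : ℤ⟦X⟧) := by
  unfold vc
  rw [dif_pos hn]
  rfl

theorem vc_mem (n : ℕ) (hn : 0 < n) : vc n ∈ Hs := by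
  induction n using Nat.strong_induction_on with
  | _ n ih =>
    have h1 : ∏ i ∈ n.divisors, vc i = -un n := by
      apply Units.ext
      rw [Units.coe_prod, Units.val_neg, un_val hn.ne']
      have h2 : ∏ i ∈ n.divisors, ((vc i : (ℤ⟦X⟧)ˣ) : ℤ⟦X⟧) =
          ∏ i ∈ n.divisors, ((Polynomial.cyclotomic i ℤ : Polynomial ℤ) : ℤ⟦X⟧) :=
        Finset.prod_congr rfl fun i hi => vc_val (Nat.pos_of_mem_divisors hi)
      rw [h2, ← coe_prod_poly, Polynomial.prod_cyclotomic_eq_X_pow_sub_one hn]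
      push_cast
      ring
    rw [← Nat.insert_self_properDivisors hn.ne', Finset.prod_insert (by simp)] at h1
    have h3 : vc n = -un n * (∏ i ∈ n.properDivisors, vc i)⁻¹ := by
      rw [← h1, mul_inv_cancel_right]
    rw [h3]
    refine Hs.mul_mem ⟨Finsupp.single n 1, Or.inr ?_⟩ (Hs.inv_mem (Subgroup.prod_mem _ fun i hi => ?_))
    · rw [E_single, zpow_one]
    · rw [Nat.mem_properDivisors] at hi
      exact ih i hi.2 (Nat.pos_of_dvd_of_pos hi.1 hn)

theorem cyc_finite {S : AddSubmonoid ℕ} (h : IsCyc S) : ∃ e : ℕ →₀ ℤ, e 0 = 0 ∧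
    hil S = ((E e : (ℤ⟦X⟧)ˣ) : ℤ⟦X⟧) := by
  obtain ⟨m, hm, hm2⟩ := h
  have h1 : ∀ m : Multiset ℕ, (∀ n ∈ m, 0 < n) → ∃ u ∈ Hs, ((u : (ℤ⟦X⟧)ˣ) : ℤ⟦X⟧) =
      (((m.map fun n => Polynomial.cyclotomic n ℤ).prod : Polynomial ℤ) : ℤ⟦X⟧) := by
    intro m
    induction m using Multiset.induction_on with
    | empty =>
      intro _
      exact ⟨1, Hs.one_mem, by simp⟩
    | cons a m ih =>
      intro hm
      obtain ⟨u, hu, hu2⟩ := ih fun n hn => hm n (Multiset.mem_cons_of_mem hn)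
      have ha := hm a (Multiset.mem_cons_self a m)
      refine ⟨vc a * u, Hs.mul_mem (vc_mem a ha) hu, ?_⟩
      rw [Multiset.map_cons, Multiset.prod_cons, Polynomial.coe_mul, Units.val_mul, vc_val ha, hu2]
  obtain ⟨u, ⟨e, he⟩, hu2⟩ := h1 m hm
  rw [hm2] at hu2
  have h2 : pol S = ((E e : (ℤ⟦X⟧)ˣ) : ℤ⟦X⟧) := by
    rcases he with rfl | rfl
    · exact hu2.symm
    · exfalso
      have h3 := congrArg constantCoeff hu2
      rw [cc_pol, Units.val_neg, map_neg, cc_E] at h3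
      omega
  have h3 : hil S = ((E (e - Finsupp.single 1 1) : (ℤ⟦X⟧)ˣ) : ℤ⟦X⟧) := by
    have h4 : ((un 1 : (ℤ⟦X⟧)ˣ) : ℤ⟦X⟧) * hil S = ((E e : (ℤ⟦X⟧)ˣ) : ℤ⟦X⟧) := by
      rw [← h2, un_val one_ne_zero, pow_one]
      rfl
    have h5 : hil S = (((un 1)⁻¹ : (ℤ⟦X⟧)ˣ) : ℤ⟦X⟧) * ((E e : (ℤ⟦X⟧)ˣ) : ℤ⟦X⟧) := by
      rw [← h4, ← mul_assoc, Units.inv_mul, one_mul]
    rw [h5, E_sub, E_single, zpow_one, div_eq_mul_inv, mul_comm (E e), Units.val_mul]
  refine ⟨(e - Finsupp.single 1 1).erase 0, Finsupp.erase_same, ?_⟩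
  rw [h3]
  congr 1
  obtain ⟨f, hf⟩ : ∃ f, f = e - Finsupp.single 1 1 := ⟨_, rfl⟩
  rw [← hf]
  have h6 : E f = E (Finsupp.single 0 (f 0) + f.erase 0) := by
    rw [Finsupp.single_add_erase]
  rw [h6, E_add, E_single, un_zero, one_zpow, one_mul]

/-! ### Finite implies cyclotomic -/

theorem dvd_prod_cyc (m : Multiset ℕ) (hm : ∀ n ∈ m, 0 < n) (p : Polynomial ℤ)
    (hp : p ∣ (m.map fun n => Polynomial.cyclotomic n ℤ).prod) :
    ∃ m' ≤ m, Associated p (m'.map fun n => Polynomial.cyclotomic n ℤ).prod := by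
  induction m using Multiset.induction_on generalizing p with
  | empty =>
    refine ⟨0, le_rfl, ?_⟩
    rw [Multiset.map_zero, Multiset.prod_zero] at hp ⊢
    exact associated_one_iff_isUnit.2 (isUnit_of_dvd_one hp)
  | cons a m ih =>
    rw [Multiset.map_cons, Multiset.prod_cons] at hp
    have ha := hm a (Multiset.mem_cons_self a m)
    have hm' : ∀ n ∈ m, 0 < n := fun n hn => hm n (Multiset.mem_cons_of_mem hn)
    have hpr : Prime (Polynomial.cyclotomic a ℤ) := (Polynomial.cyclotomic.irreducible ha).prime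
    by_cases h1 : Polynomial.cyclotomic a ℤ ∣ p
    · obtain ⟨p', rfl⟩ := h1
      obtain ⟨m', hm2, hm3⟩ := ih hm' p' ((mul_dvd_mul_iff_left hpr.ne_zero).1 hp)
      refine ⟨a ::ₘ m', Multiset.cons_le_cons a hm2, ?_⟩
      rw [Multiset.map_cons, Multiset.prod_cons]
      exact (Associated.refl _).mul_mul hm3
    · obtain ⟨r, hr⟩ := hp
      have h2 : Polynomial.cyclotomic a ℤ ∣ p * r := ⟨_, hr.symm⟩
      rcases hpr.dvd_or_dvd h2 with h3 | h3
      · exact absurd h3 h1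
      · obtain ⟨r', rfl⟩ := h3
        have h4 : (m.map fun n => Polynomial.cyclotomic n ℤ).prod = p * r' := by
          apply mul_left_cancel₀ hpr.ne_zero
          rw [hr]
          ring
        obtain ⟨m', hm2, hm3⟩ := ih hm' p ⟨r', h4⟩
        exact ⟨m', hm2.trans (Multiset.le_cons_self m a), hm3⟩

theorem Qp_dvd (f : ℕ →₀ ℕ) (h0 : f 0 = 0) : ∃ m : Multiset ℕ, (∀ n ∈ m, 0 < n) ∧
    Qp f ∣ (m.map fun n => Polynomial.cyclotomic n ℤ).prod := by
  have h1 : ∀ s : Finset ℕ, (∀ j ∈ s, j ≠ 0) → ∃ m : Multiset ℕ, (∀ n ∈ m, 0 < n) ∧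
      (∏ j ∈ s, (if j = 0 then 1 else 1 - Polynomial.X ^ j : Polynomial ℤ) ^ f j) ∣
        (m.map fun n => Polynomial.cyclotomic n ℤ).prod := by
    classical
    intro s
    induction s using Finset.induction_on with
    | empty => exact fun _ => ⟨0, by simp, by simp⟩
    | insert a s ha ih =>
      intro hs
      obtain ⟨m, hm, hm2⟩ := ih fun j hj => hs j (Finset.mem_insert_of_mem hj)
      have ha0 := hs a (Finset.mem_insert_self a s)
      refine ⟨f a • a.divisors.val + m, ?_, ?_⟩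
      · intro n hn
        rcases Multiset.mem_add.1 hn with h | h
        · have h2 := Multiset.mem_of_mem_nsmul h
          exact Nat.pos_of_mem_divisors h2
        · exact hm n h
      · rw [Finset.prod_insert ha, Multiset.map_add, Multiset.prod_add, Multiset.map_nsmul,
          Multiset.prod_nsmul]
        refine mul_dvd_mul (pow_dvd_pow_of_dvd ?_ _) hm2
        rw [if_neg ha0]
        have h3 : (a.divisors.val.map fun n => Polynomial.cyclotomic n ℤ).prod =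
            ∏ i ∈ a.divisors, Polynomial.cyclotomic i ℤ := rfl
        rw [h3, Polynomial.prod_cyclotomic_eq_X_pow_sub_one (Nat.pos_of_ne_zero ha0)]
        exact ⟨-1, by ring⟩
  refine h1 f.support fun j hj => ?_
  rintro rfl
  exact (Finsupp.mem_support_iff.1 hj) h0

theorem finite_cyc {S : AddSubmonoid ℕ} (hS : NumSgp S) {e : ℕ →₀ ℤ} (h0 : e 0 = 0)
    (h : hil S = ((E e : (ℤ⟦X⟧)ˣ) : ℤ⟦X⟧)) : IsCyc S := by
  have hpol : pol S = ((E (Finsupp.single 1 1 + e) : (ℤ⟦X⟧)ˣ) : ℤ⟦X⟧) := by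
    unfold pol
    rw [E_add, Units.val_mul, ← h, E_single, zpow_one, un_val one_ne_zero, pow_one]
  have h00 : (Finsupp.single 1 1 + e : ℕ →₀ ℤ) 0 = 0 := by
    rw [Finsupp.add_apply, h0, Finsupp.single_apply, if_neg one_ne_zero, add_zero]
  obtain ⟨p, hp, hp1⟩ := exists_poly hS
  obtain ⟨f, g, hfg, hfg0⟩ := exists_parts (Finsupp.single 1 1 + e)
  have h1 := poly_eq (hp.trans hpol) hfg
  obtain ⟨m, hm, hm2⟩ := Qp_dvd f (hfg0 0 h00).1
  have h2 : p ∣ (m.map fun n => Polynomial.cyclotomic n ℤ).prod :=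
    (Dvd.intro _ h1).trans hm2
  obtain ⟨m', hm', hass⟩ := dvd_prod_cyc m hm p h2
  have hpos : ∀ n ∈ m', 0 < n := fun n hn => hm n (Multiset.mem_of_le hm' hn)
  refine ⟨m', hpos, ?_⟩
  rw [← hp]
  congr 1
  obtain ⟨u, hu⟩ := hass
  have hne1 : ∀ n ∈ m', n ≠ 1 := by
    rintro n hn rfl
    have h3 : Polynomial.cyclotomic 1 ℤ ∣ (m'.map fun n => Polynomial.cyclotomic n ℤ).prod :=
      Multiset.dvd_prod (Multiset.mem_map_of_mem _ hn)
    rw [← hu] at h3
    have h4 := Polynomial.eval_dvd (x := 1) h3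
    rw [Polynomial.cyclotomic_one, Polynomial.eval_mul, hp1, one_mul] at h4
    have h5 : IsUnit (Polynomial.eval 1 (u : Polynomial ℤ)) :=
      (u.isUnit.map (Polynomial.evalRingHom 1))
    rw [Polynomial.eval_sub, Polynomial.eval_X, Polynomial.eval_one, sub_self] at h4
    exact h5.ne_zero (zero_dvd_iff.1 h4)
  have hz : Polynomial.coeff (m'.map fun n => Polynomial.cyclotomic n ℤ).prod 0 = 1 := by
    clear hm' hu
    induction m' using Multiset.induction_on with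
    | empty => simp
    | cons a s ih =>
      rw [Multiset.map_cons, Multiset.prod_cons, Polynomial.mul_coeff_zero,
        ih (fun n hn => hpos n (Multiset.mem_cons_of_mem hn))
          (fun n hn => hne1 n (Multiset.mem_cons_of_mem hn)), mul_one]
      have ha := hpos a (Multiset.mem_cons_self a s)
      have ha1 := hne1 a (Multiset.mem_cons_self a s)
      exact Polynomial.cyclotomic_coeff_zero ℤ (by omega)
  have hp0 : p.coeff 0 = 1 := by
    have h3 := congrArg constantCoeff hp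
    rwa [Polynomial.constantCoeff_coe, cc_pol] at h3
  have hu0 : (u : Polynomial ℤ).coeff 0 = 1 := by
    have h3 := congrArg (fun q => Polynomial.coeff q 0) hu
    simp only [Polynomial.mul_coeff_zero] at h3
    rwa [hp0, hz, one_mul] at h3
  obtain ⟨r, hr, hr2⟩ := Polynomial.isUnit_iff.1 u.isUnit
  rw [← hr2, Polynomial.coeff_C_zero] at hu0
  rw [← hu, ← hr2, hu0, map_one, mul_one]

end Pool.Agent.CNS
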