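import Mathlib

/-!
# Cyclotomic numerical semigroups (MP_b8fed3_al): definitions
-/

set_option autoImplicit false

namespace Pool.Agent.CNS

open PowerSeries

/-- A numerical semigroup: a submonoid of `(ℕ, +)` with finite complement. -/
def NumSgp (S : AddSubmonoid ℕ) : Prop := ((S : Set ℕ)ᶜ).Finite

/-- The minimal generators: the nonzero elements of `S` which are not a sum of two nonzero elements
of `S`. -/
def atoms (S : AddSubmonoid ℕ) : Set ℕ :=
  {a | a ∈ S ∧ a ≠ 0 ∧ ∀ x ∈ S, ∀ y ∈ S, x + y = a → x = 0 ∨ y = 0}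

open Classical in
/-- The Hilbert series `∑ x ^ s`, `s ∈ S`. -/
noncomputable def hil (S : AddSubmonoid ℕ) : ℤ⟦X⟧ := PowerSeries.mk fun n => if n ∈ S then 1 else 0

/-- The semigroup polynomial `(1 - x) ∑ x ^ s`, as a power series. -/
noncomputable def pol (S : AddSubmonoid ℕ) : ℤ⟦X⟧ := (1 - X) * hil S

/-- `S` is cyclotomic: the semigroup polynomial is a product of cyclotomic polynomials. -/
def IsCyc (S : AddSubmonoid ℕ) : Prop :=
  ∃ m : Multiset ℕ, (∀ n ∈ m, 0 < n) ∧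
    (((m.map fun n => Polynomial.cyclotomic n ℤ).prod : Polynomial ℤ) : ℤ⟦X⟧) = pol S

/-- `(1 - x ^ j) ^ k` for an integer `k` (and `j ≥ 1`). -/
noncomputable def pw (j : ℕ) (k : ℤ) : ℤ⟦X⟧ :=
  (1 - X ^ j) ^ k.toNat * invOfUnit (1 - X ^ j) 1 ^ (-k).toNat

/-- `f = ∏_(j ≥ 1) (1 - x ^ j) ^ (e j)`: for every `n`, `f` and the product over `1 ≤ j ≤ n` have the
same coefficients up to the degree `n`. -/
def IsExp (f : ℤ⟦X⟧) (e : ℕ → ℤ) : Prop :=
  ∀ n : ℕ, X ^ (n + 1) ∣ f - ∏ j ∈ Finset.Icc 1 n, pw j (e j)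

/-- The vertices of the graph `∇_b`: the minimal generators `a` with `b - a ∈ S`. -/
def Vert (S : AddSubmonoid ℕ) (b : ℕ) : Type := {a : ℕ // a ∈ atoms S ∧ ∃ s ∈ S, a + s = b}

/-- The graph `∇_b`: `a ≠ a'` are adjacent iff `b - a - a' ∈ S`. -/
def nabla (S : AddSubmonoid ℕ) (b : ℕ) : SimpleGraph (Vert S b) where
  Adj a a' := a ≠ a' ∧ ∃ s ∈ S, a.1 + a'.1 + s = b
  symm := ⟨fun a a' h => ⟨h.1.symm, by
    obtain ⟨s, hs, h2⟩ := h.2
    exact ⟨s, hs, by rw [add_comm a'.1 a.1]; exact h2⟩⟩⟩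
  loopless := ⟨fun a h => h.1 rfl⟩

/-- The number of connected components of `∇_b`. -/
noncomputable def nc (S : AddSubmonoid ℕ) (b : ℕ) : ℕ := Nat.card (nabla S b).ConnectedComponent

/-- The Betti elements: `∇_b` is not connected, that is, it has at least two components. -/
def betti (S : AddSubmonoid ℕ) : Set ℕ := {b | b ∈ S ∧ 2 ≤ nc S b}

/-- The value `∑ k_a a` of a vector `(k_a)`, `a` in the set of minimal generators. -/
def val (S : AddSubmonoid ℕ) (u : atoms S →₀ ℕ) : ℕ := u.sum fun a k => k * (a : ℕ)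

/-- `S` is a complete intersection: it has a presentation with `|A| - 1` relations, `A` the set of
minimal generators. -/
def IsCI (S : AddSubmonoid ℕ) : Prop :=
  ∃ ρ : Finset ((atoms S →₀ ℕ) × (atoms S →₀ ℕ)), ρ.card + 1 = (atoms S).ncard ∧
    ∀ u v : atoms S →₀ ℕ, addConGen (fun x y => (x, y) ∈ ρ) u v ↔ val S u = val S v

/-- `S` has the Hilbert series of a complete intersection:
`∑ x ^ s = ∏_(j < |A|) (1 - x ^ (d j)) / ∏_(a ∈ A) (1 - x ^ a)`. -/
def HilbCI (S : AddSubmonoid ℕ) : Prop :=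
  ∃ (A : Finset ℕ) (d : Multiset ℕ), (A : Set ℕ) = atoms S ∧ (∀ n ∈ d, 0 < n) ∧
    Multiset.card d + 1 = A.card ∧
    hil S * ∏ a ∈ A, (1 - X ^ a) = (d.map fun n => 1 - X ^ n).prod

end Pool.Agent.CNS
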