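import Pool.Agent.Helper63_CNS.Ser

/-!
# The exponent sequence
-/

set_option autoImplicit false

namespace Pool.Agent.CNS

open PowerSeries

theorem prod_pw (e : ℕ → ℤ) (n : ℕ) : ∏ j ∈ Finset.Icc 1 n, pw j (e j) =
    ((∏ j ∈ Finset.Icc 1 n, un j ^ e j : (ℤ⟦X⟧)ˣ) : ℤ⟦X⟧) := by
  rw [Units.coe_prod]
  refine Finset.prod_congr rfl fun j hj => ?_
  exact pw_eq (by have := (Finset.mem_Icc.1 hj).1; omega) _

theorem isExp_iff (f : ℤ⟦X⟧) (e : ℕ → ℤ) : IsExp f e ↔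
    ∀ n, Cg (n + 1) f ((∏ j ∈ Finset.Icc 1 n, un j ^ e j : (ℤ⟦X⟧)ˣ) : ℤ⟦X⟧) := by
  unfold IsExp Cg
  exact forall_congr' fun n => by rw [prod_pw]

theorem isExp_E (e : ℕ →₀ ℤ) : IsExp ((E e : (ℤ⟦X⟧)ˣ) : ℤ⟦X⟧) e := by
  classical
  rw [isExp_iff]
  intro n
  have h1 : E e = ∏ j ∈ e.support ∪ Finset.Icc 1 n, un j ^ e j :=
    E_eq_prod e _ Finset.subset_union_left
  have h2 : ∏ j ∈ e.support ∪ Finset.Icc 1 n, un j ^ e j =
      (∏ j ∈ (e.support ∪ Finset.Icc 1 n) \ Finset.Icc 1 n, un j ^ e j) *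
        ∏ j ∈ Finset.Icc 1 n, un j ^ e j :=
    (Finset.prod_sdiff Finset.subset_union_right).symm
  rw [h1, h2, Units.val_mul]
  have h3 : Cg (n + 1) ((∏ j ∈ (e.support ∪ Finset.Icc 1 n) \ Finset.Icc 1 n, un j ^ e j :
      (ℤ⟦X⟧)ˣ) : ℤ⟦X⟧) 1 := by
    rw [Units.coe_prod]
    have h4 : (1 : ℤ⟦X⟧) = ∏ j ∈ (e.support ∪ Finset.Icc 1 n) \ Finset.Icc 1 n, 1 :=
      Finset.prod_const_one.symm
    rw [h4]
    refine Cg.prod _ fun j hj => ?_
    rcases Nat.lt_or_ge n j with h | h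
    · exact un_zpow_cg h _
    · have hj0 : j = 0 := by
        by_contra h0
        refine (Finset.mem_sdiff.1 hj).2 (Finset.mem_Icc.2 ⟨by omega, h⟩)
      subst hj0
      rw [un_zero, one_zpow, Units.val_one]
      exact Cg.refl _ _
  have h5 := h3.mul (Cg.refl (n + 1) ((∏ j ∈ Finset.Icc 1 n, un j ^ e j : (ℤ⟦X⟧)ˣ) : ℤ⟦X⟧))
  rwa [one_mul] at h5

theorem isExp_unique {f : ℤ⟦X⟧} {e e' : ℕ → ℤ} (h : IsExp f e) (h' : IsExp f e') (j : ℕ)
    (hj : j ≠ 0) : e j = e' j := by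
  rw [isExp_iff] at h h'
  induction j using Nat.strong_induction_on with
  | _ n ih =>
    obtain ⟨k, rfl⟩ : ∃ k, n = k + 1 := ⟨n - 1, by omega⟩
    have h1 := (h (k + 1)).symm.trans (h' (k + 1))
    rw [Finset.prod_Icc_succ_top (by omega), Finset.prod_Icc_succ_top (by omega)] at h1
    have h2 : ∏ j ∈ Finset.Icc 1 k, un j ^ e j = ∏ j ∈ Finset.Icc 1 k, un j ^ e' j := by
      refine Finset.prod_congr rfl fun i hi => ?_
      rw [Finset.mem_Icc] at hi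
      rw [ih i (by omega) (by omega)]
    rw [h2] at h1
    obtain ⟨A, hA⟩ : ∃ A, A = ∏ j ∈ Finset.Icc 1 k, un j ^ e' j := ⟨_, rfl⟩
    rw [← hA, Units.val_mul, Units.val_mul] at h1
    have h3 := (Cg.refl (k + 1 + 1) ((A⁻¹ : (ℤ⟦X⟧)ˣ) : ℤ⟦X⟧)).mul h1
    rw [← mul_assoc, ← mul_assoc, Units.inv_mul, one_mul, one_mul] at h3
    have h4 := ((un_zpow_cg' hj (e (k + 1))).symm.trans h3).trans (un_zpow_cg' hj (e' (k + 1)))
    have h5 := h4.coeff (le_refl _)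
    have h6 : ∀ c : ℤ, coeff (k + 1) (1 - (c : ℤ⟦X⟧) * X ^ (k + 1)) = -c := by
      intro c
      have e1 : ((c : ℤ) : ℤ⟦X⟧) = C c := by simp
      rw [map_sub, coeff_one, if_neg hj, e1, coeff_C_mul, coeff_X_pow, if_pos rfl, mul_one, zero_sub]
    rw [h6, h6] at h5
    exact neg_injective h5

/-! ### Existence -/

section exist

variable (f : ℤ⟦X⟧)

/-- the exponents up to `n` -/
noncomputable def Gx : ℕ → ℕ → ℤ
  | 0 => 0
  | n + 1 => Function.update (Gx n) (n + 1)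
      (-coeff (n + 1) (f * (((∏ j ∈ Finset.Icc 1 n, un j ^ Gx n j)⁻¹ : (ℤ⟦X⟧)ˣ) : ℤ⟦X⟧)))

theorem Gx_stable {j n : ℕ} (h : j ≤ n) : Gx f n j = Gx f j j := by
  induction n, h using Nat.le_induction with
  | base => rfl
  | succ n hn ih =>
    show Function.update (Gx f n) (n + 1) _ j = _
    rw [Function.update_of_ne (by omega), ih]

theorem Gx_spec (hf : constantCoeff f = 1) (n : ℕ) :
    Cg (n + 1) f ((∏ j ∈ Finset.Icc 1 n, un j ^ Gx f n j : (ℤ⟦X⟧)ˣ) : ℤ⟦X⟧) := by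
  induction n with
  | zero =>
    have h1 : (∏ j ∈ Finset.Icc 1 0, un j ^ Gx f 0 j : (ℤ⟦X⟧)ˣ) = 1 := by
      rw [Finset.Icc_eq_empty (by omega), Finset.prod_empty]
    rw [h1, Units.val_one]
    refine cg_of_coeff fun k hk => ?_
    have hk0 : k = 0 := by omega
    subst hk0
    rw [coeff_zero_eq_constantCoeff_apply, hf, coeff_zero_eq_constantCoeff_apply, map_one]
  | succ n ih =>
    have hc : Gx f (n + 1) (n + 1) = -coeff (n + 1)
        (f * (((∏ j ∈ Finset.Icc 1 n, un j ^ Gx f n j)⁻¹ : (ℤ⟦X⟧)ˣ) : ℤ⟦X⟧)) := by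
      show Function.update (Gx f n) (n + 1) _ (n + 1) = _
      rw [Function.update_self]
    have h2 : ∏ j ∈ Finset.Icc 1 n, un j ^ Gx f (n + 1) j = ∏ j ∈ Finset.Icc 1 n, un j ^ Gx f n j := by
      refine Finset.prod_congr rfl fun i hi => ?_
      rw [Finset.mem_Icc] at hi
      show un i ^ Function.update (Gx f n) (n + 1) _ i = _
      rw [Function.update_of_ne (by omega)]
    rw [Finset.prod_Icc_succ_top (by omega), h2]
    obtain ⟨A, hA⟩ : ∃ A, A = ∏ j ∈ Finset.Icc 1 n, un j ^ Gx f n j := ⟨_, rfl⟩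
    rw [← hA] at ih hc ⊢
    obtain ⟨c, hcc⟩ : ∃ c, c = Gx f (n + 1) (n + 1) := ⟨_, rfl⟩
    rw [← hcc] at hc ⊢
    have h3 := ih.mul (Cg.refl (n + 1) ((A⁻¹ : (ℤ⟦X⟧)ˣ) : ℤ⟦X⟧))
    rw [Units.mul_inv] at h3
    have h4 : Cg (n + 1 + 1) (f * ((A⁻¹ : (ℤ⟦X⟧)ˣ) : ℤ⟦X⟧)) (1 - (c : ℤ⟦X⟧) * X ^ (n + 1)) := by
      refine cg_of_coeff fun k hk => ?_
      have e1 : ((c : ℤ) : ℤ⟦X⟧) = C c := by simp
      rw [map_sub, e1, coeff_C_mul, coeff_X_pow]
      rcases Nat.lt_or_ge k (n + 1) with h | h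
      · rw [if_neg (by omega), mul_zero, sub_zero]
        exact h3.coeff (by omega)
      · have hk' : k = n + 1 := by omega
        subst hk'
        rw [if_pos rfl, mul_one, coeff_one, if_neg (by omega), zero_sub, hc, neg_neg]
    have h5 := h4.trans (un_zpow_cg' (by omega : n + 1 ≠ 0) c).symm
    have h6 := h5.mul (Cg.refl (n + 1 + 1) (A : ℤ⟦X⟧))
    rw [mul_assoc, Units.inv_mul, mul_one] at h6
    rw [Units.val_mul, mul_comm]
    exact h6

theorem exists_isExp (hf : constantCoeff f = 1) : ∃ e : ℕ → ℤ, IsExp f e := by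
  refine ⟨fun j => Gx f j j, ?_⟩
  rw [isExp_iff]
  intro n
  have h1 : ∏ j ∈ Finset.Icc 1 n, un j ^ Gx f j j = ∏ j ∈ Finset.Icc 1 n, un j ^ Gx f n j := by
    refine Finset.prod_congr rfl fun i hi => ?_
    rw [Finset.mem_Icc] at hi
    rw [Gx_stable f hi.2]
  show Cg (n + 1) f ((∏ j ∈ Finset.Icc 1 n, un j ^ Gx f j j : (ℤ⟦X⟧)ˣ) : ℤ⟦X⟧)
  rw [h1]
  exact Gx_spec f hf n

end exist

theorem cc_hil (S : AddSubmonoid ℕ) : constantCoeff (hil S) = 1 := by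
  unfold hil
  rw [← coeff_zero_eq_constantCoeff_apply, coeff_mk, if_pos S.zero_mem]

theorem cc_pol (S : AddSubmonoid ℕ) : constantCoeff (pol S) = 1 := by
  unfold pol
  rw [map_mul, cc_hil, map_sub, map_one, constantCoeff_X, sub_zero, mul_one]

/-- The cyclotomic exponent sequence of `S`: the unique sequence of integers `e 1, e 2, …` with
`P_S = ∏_(j ≥ 1) (1 - x ^ j) ^ (e j)` (`e 0 = 0` by convention). -/
theorem exists_unique_exp (S : AddSubmonoid ℕ) : ∃! e : ℕ → ℤ, e 0 = 0 ∧ IsExp (pol S) e := by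
  obtain ⟨e, he⟩ := exists_isExp (pol S) (cc_pol S)
  refine ⟨Function.update e 0 0, ⟨Function.update_self .., ?_⟩, ?_⟩
  · rw [isExp_iff] at he ⊢
    intro n
    have h1 : ∏ j ∈ Finset.Icc 1 n, un j ^ Function.update e 0 0 j =
        ∏ j ∈ Finset.Icc 1 n, un j ^ e j := by
      refine Finset.prod_congr rfl fun i hi => ?_
      rw [Finset.mem_Icc] at hi
      rw [Function.update_of_ne (by omega)]
    rw [h1]
    exact he n
  · rintro e' ⟨h0, he'⟩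
    funext j
    by_cases hj : j = 0
    · subst hj
      rw [h0, Function.update_self]
    · rw [Function.update_of_ne hj]
      exact isExp_unique he' he j hj

/-- The cyclotomic exponent sequence. -/
noncomputable def expSeq (S : AddSubmonoid ℕ) : ℕ → ℤ := (exists_unique_exp S).choose

theorem expSeq_zero (S : AddSubmonoid ℕ) : expSeq S 0 = 0 := (exists_unique_exp S).choose_spec.1.1

theorem expSeq_isExp (S : AddSubmonoid ℕ) : IsExp (pol S) (expSeq S) :=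
  (exists_unique_exp S).choose_spec.1.2

/-- for a finite product -/
theorem expSeq_eq {S : AddSubmonoid ℕ} {e : ℕ →₀ ℤ} (h : hil S = ((E e : (ℤ⟦X⟧)ˣ) : ℤ⟦X⟧)) (j : ℕ)
    (hj : j ≠ 0) : expSeq S j = e j + if j = 1 then 1 else 0 := by
  have h1 : pol S = ((E (Finsupp.single 1 1 + e) : (ℤ⟦X⟧)ˣ) : ℤ⟦X⟧) := by
    unfold pol
    rw [E_add, Units.val_mul, ← h, E_single, zpow_one, un_val one_ne_zero, pow_one]
  have h2 := expSeq_isExp S
  rw [h1] at h2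
  rw [isExp_unique h2 (isExp_E _) j hj, Finsupp.add_apply, Finsupp.single_apply, add_comm]
  simp only [eq_comm (a := 1) (b := j)]

end Pool.Agent.CNS
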