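import Pool.Agent.Helper63_CNS.Cyc

/-!
# The gluing `m S + y ℕ`
-/

set_option autoImplicit false

namespace Pool.Agent.CNS

open PowerSeries

/-- the gluing `m S + y ℕ` -/
def glue (m y : ℕ) (S : AddSubmonoid ℕ) : AddSubmonoid ℕ where
  carrier := {n | ∃ s ∈ S, ∃ k : ℕ, m * s + y * k = n}
  zero_mem' := ⟨0, S.zero_mem, 0, by simp⟩
  add_mem' := by
    rintro a b ⟨s, hs, k, rfl⟩ ⟨s', hs', k', rfl⟩
    exact ⟨s + s', S.add_mem hs hs', k + k', by ring⟩

/-- the hypotheses of the gluing -/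
structure GH (m y : ℕ) (S : AddSubmonoid ℕ) : Prop where
  hm : 2 ≤ m
  hc : Nat.Coprime m y
  hy : y ∈ S
  hy0 : y ≠ 0
  hya : y ∉ atoms S

theorem mem_glue {m y : ℕ} {S : AddSubmonoid ℕ} {n : ℕ} :
    n ∈ glue m y S ↔ ∃ s ∈ S, ∃ k : ℕ, m * s + y * k = n := Iff.rfl

theorem mem_mul {S : AddSubmonoid ℕ} {y : ℕ} (hy : y ∈ S) (k : ℕ) : y * k ∈ S := by
  induction k with
  | zero => rw [mul_zero]; exact S.zero_mem
  | succ k ih => rw [mul_add, mul_one]; exact S.add_mem ih hy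

section

variable {m y : ℕ} {S : AddSubmonoid ℕ} (H : GH m y S)

include H

theorem GH.m0 : m ≠ 0 := by
  have := H.hm
  omega

theorem GH.dvd {k : ℕ} (h : m ∣ y * k) : m ∣ k := H.hc.dvd_of_dvd_mul_left h

theorem GH.ndvd : ¬ m ∣ y := by
  intro h
  have h2 : m ∣ Nat.gcd m y := Nat.dvd_gcd dvd_rfl h
  rw [H.hc] at h2
  have h3 := Nat.le_of_dvd one_pos h2
  have := H.hm
  omega

theorem GH.mul_eq {z s k : ℕ} (h : m * s + y * k = m * z) : ∃ q, k = m * q ∧ z = s + y * q := by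
  have h1 : m ∣ y * k := by
    have h2 : m ∣ m * s + y * k := ⟨z, h⟩
    exact (Nat.dvd_add_right (Dvd.intro _ rfl)).1 h2
  obtain ⟨q, rfl⟩ := H.dvd h1
  refine ⟨q, rfl, ?_⟩
  have h2 : m * (s + y * q) = m * z := by
    rw [← h]
    ring
  exact (Nat.eq_of_mul_eq_mul_left (Nat.pos_of_ne_zero H.m0) h2).symm

theorem GH.mul_mem {z : ℕ} : m * z ∈ glue m y S ↔ z ∈ S := by
  constructor
  · rintro ⟨s, hs, k, h⟩
    obtain ⟨q, -, rfl⟩ := H.mul_eq h
    exact S.add_mem hs (CNS.mem_mul H.hy q)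
  · intro h
    exact ⟨z, h, 0, by simp⟩

theorem GH.y_mem : y ∈ glue m y S := ⟨0, S.zero_mem, 1, by simp⟩

theorem GH.repr {n : ℕ} (h : n ∈ glue m y S) : ∃ s ∈ S, ∃ k < m, m * s + y * k = n := by
  obtain ⟨s, hs, k, rfl⟩ := h
  refine ⟨s + y * (k / m), S.add_mem hs (CNS.mem_mul H.hy _), k % m,
    Nat.mod_lt _ (Nat.pos_of_ne_zero H.m0), ?_⟩
  have h1 := Nat.div_add_mod k m
  calc m * (s + y * (k / m)) + y * (k % m) = m * s + y * (m * (k / m) + k % m) := by ring
    _ = m * s + y * k := by rw [h1]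

theorem GH.uniq {s s' k k' : ℕ} (hk : k < m) (hk' : k' < m) (h : m * s + y * k = m * s' + y * k') :
    s = s' ∧ k = k' := by
  have hk2 : k = k' := by
    rcases le_total k k' with h1 | h1
    · obtain ⟨d, rfl⟩ := Nat.exists_eq_add_of_le h1
      have h2 : m * s' + y * d = m * s := by
        have h3 : m * s + y * k = m * s' + y * d + y * k := by rw [h]; ring
        omega
      obtain ⟨q, hq, -⟩ := H.mul_eq h2
      rcases Nat.eq_zero_or_pos q with rfl | hq0
      · rw [mul_zero] at hq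
        omega
      · have h4 : m * 1 ≤ m * q := Nat.mul_le_mul_left m hq0
        omega
    · obtain ⟨d, rfl⟩ := Nat.exists_eq_add_of_le h1
      have h2 : m * s + y * d = m * s' := by
        have h3 : m * s + y * d + y * k' = m * s' + y * k' := by rw [← h]; ring
        omega
      obtain ⟨q, hq, -⟩ := H.mul_eq h2
      rcases Nat.eq_zero_or_pos q with rfl | hq0
      · rw [mul_zero] at hq
        omega
      · have h4 : m * 1 ≤ m * q := Nat.mul_le_mul_left m hq0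
        omega
  subst hk2
  refine ⟨?_, rfl⟩
  have h5 : m * s = m * s' := by omega
  exact Nat.eq_of_mul_eq_mul_left (Nat.pos_of_ne_zero H.m0) h5

theorem GH.y_eq {s k : ℕ} (h : m * s + y * k = y) : s = 0 ∧ k = 1 := by
  have hm := H.hm
  have h1 : m * s + y * k = m * 0 + y * 1 := by rw [h]; ring
  rcases lt_or_ge k m with hk | hk
  · exact H.uniq hk (by omega) h1
  · exfalso
    have hy0 := Nat.pos_of_ne_zero H.hy0
    have h2 : y * 2 ≤ y * k := Nat.mul_le_mul_left y (by omega)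
    omega

/-- the gluing is a numerical semigroup -/
theorem GH.numSgp (hS : NumSgp S) : NumSgp (glue m y S) := by
  unfold NumSgp at *
  obtain ⟨B, hB⟩ := hS.bddAbove
  refine (Set.finite_Iic (y * m + m * (B + 1))).subset fun n hn => ?_
  rw [Set.mem_Iic]
  by_contra h
  push Not at h
  apply hn
  -- choose `k < m` with `y k ≡ n` mod `m`
  have hpos := Nat.pos_of_ne_zero H.m0
  obtain ⟨k, hk, hk2⟩ : ∃ k < m, y * k ≡ n [MOD m] := by
    haveI : NeZero m := ⟨H.m0⟩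
    have hu : IsUnit (y : ZMod m) := (ZMod.isUnit_iff_coprime y m).2 H.hc.symm
    obtain ⟨u, hu⟩ := hu
    refine ⟨((u⁻¹ : (ZMod m)ˣ) * (n : ZMod m) : ZMod m).val, ZMod.val_lt _, ?_⟩
    rw [← ZMod.natCast_eq_natCast_iff]
    push_cast
    rw [ZMod.natCast_zmod_val, ← hu, ← mul_assoc, Units.mul_inv, one_mul]
  have hle : y * k ≤ n := by
    have : y * k ≤ y * m := Nat.mul_le_mul_left y hk.le
    omega
  obtain ⟨s, hs⟩ : m ∣ n - y * k := (Nat.modEq_iff_dvd' hle).1 hk2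
  refine ⟨s, ?_, k, by omega⟩
  by_contra hsS
  have h5 : s ≤ B := hB hsS
  have h6 : m * s ≤ m * B := Nat.mul_le_mul_left m h5
  have h7 : y * k ≤ y * m := Nat.mul_le_mul_left y hk.le
  have h8 : m * (B + 1) = m * B + m := by ring
  omega

/-- the minimal generators of the gluing -/
theorem GH.atom_y : y ∈ atoms (glue m y S) := by
  refine ⟨H.y_mem, H.hy0, ?_⟩
  rintro _ ⟨s, hs, k, rfl⟩ _ ⟨s', hs', k', rfl⟩ h
  have h1 : m * (s + s') + y * (k + k') = y :=
    (by ring : m * (s + s') + y * (k + k') = m * s + y * k + (m * s' + y * k')).trans h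
  obtain ⟨h2, h3⟩ := H.y_eq h1
  have h4 : s = 0 := by omega
  have h5 : s' = 0 := by omega
  subst h4 h5
  rcases Nat.eq_zero_or_pos k with rfl | hk
  · left; simp
  · right
    have h6 : k' = 0 := by omega
    subst h6
    simp

theorem GH.atom_mul {a : ℕ} : m * a ∈ atoms (glue m y S) ↔ a ∈ atoms S := by
  have hpos := Nat.pos_of_ne_zero H.m0
  constructor
  · rintro ⟨h1, h2, h3⟩
    have ha0 : a ≠ 0 := by
      rintro rfl
      exact h2 (mul_zero m)
    refine ⟨H.mul_mem.1 h1, ha0, fun x hx z hz hxz => ?_⟩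
    have h4 := h3 (m * x) (H.mul_mem.2 hx) (m * z) (H.mul_mem.2 hz) (by rw [← hxz]; ring)
    rcases h4 with h4 | h4
    · left
      exact (Nat.mul_eq_zero.1 h4).resolve_left H.m0
    · right
      exact (Nat.mul_eq_zero.1 h4).resolve_left H.m0
  · rintro ⟨h1, h2, h3⟩
    refine ⟨H.mul_mem.2 h1, Nat.mul_ne_zero H.m0 h2, ?_⟩
    rintro _ ⟨s, hs, k, rfl⟩ _ ⟨s', hs', k', rfl⟩ h
    have h4 : m * (s + s') + y * (k + k') = m * a := by rw [← h]; ring
    obtain ⟨q, hq, hq2⟩ := H.mul_eq h4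
    rcases Nat.eq_zero_or_pos q with rfl | hq0
    · rw [mul_zero] at hq hq2
      have hk : k = 0 := by omega
      have hk' : k' = 0 := by omega
      subst hk hk'
      rcases h3 s hs s' hs' (by omega) with h5 | h5
      · left; subst h5; simp
      · right; subst h5; simp
    · exfalso
      obtain ⟨r, rfl⟩ : ∃ r, q = r + 1 := ⟨q - 1, by omega⟩
      have h5 := h3 (s + s' + y * r) (S.add_mem (S.add_mem hs hs') (CNS.mem_mul H.hy r)) y H.hy
        (by rw [hq2]; ring)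
      rcases h5 with h5 | h5
      · have h6 : a = y := by
          rw [hq2, mul_add, mul_one]
          omega
        subst h6
        exact H.hya ⟨h1, h2, h3⟩
      · exact H.hy0 h5

theorem GH.atom_cases {n : ℕ} (hn : n ∈ atoms (glue m y S)) : n = y ∨ ∃ a ∈ atoms S, n = m * a := by
  obtain ⟨⟨s, hs, k, hsk⟩, h2, h3⟩ := hn
  have h4 := h3 (m * s) (H.mul_mem.2 hs) (y * k) (CNS.mem_mul H.y_mem k) hsk
  rcases h4 with h4 | h4
  · left
    rw [h4, zero_add] at hsk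
    have hk : k ≠ 0 := by
      rintro rfl
      apply h2
      rw [← hsk, mul_zero]
    obtain ⟨r, rfl⟩ : ∃ r, k = r + 1 := ⟨k - 1, by omega⟩
    have h5 := h3 (y * r) (CNS.mem_mul H.y_mem r) y H.y_mem (by rw [← hsk]; ring)
    rcases h5 with h5 | h5
    · rw [← hsk, mul_add, mul_one, h5, zero_add]
    · exact absurd h5 H.hy0
  · right
    rw [h4, add_zero] at hsk
    refine ⟨s, H.atom_mul.1 ⟨⟨s, hs, 0, by rw [hsk]; simp⟩, ?_, ?_⟩, hsk.symm⟩
    · rw [hsk]; exact h2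
    · rw [hsk]; exact h3

/-! ### The Hilbert series -/

theorem GH.hil_eq : hil (glue m y S) = expand m H.m0 (hil S) * ∑ k ∈ Finset.range m, (X ^ y) ^ k := by
  classical
  ext n
  rw [Finset.mul_sum, map_sum]
  have h1 : ∀ k ∈ Finset.range m, coeff n (expand m H.m0 (hil S) * (X ^ y) ^ k) =
      if ∃ s ∈ S, m * s + y * k = n then 1 else 0 := by
    intro k _
    rw [← pow_mul, coeff_mul_X_pow']
    by_cases h2 : y * k ≤ n
    · rw [if_pos h2, coeff_expand]
      by_cases h3 : m ∣ n - y * k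
      · rw [if_pos h3]
        obtain ⟨s, hs⟩ := h3
        rw [hs, Nat.mul_div_cancel_left s (Nat.pos_of_ne_zero H.m0)]
        by_cases h4 : s ∈ S
        · rw [coeff_hil_mem h4, if_pos ⟨s, h4, by omega⟩]
        · rw [coeff_hil_nmem h4, if_neg]
          rintro ⟨s', hs', h5⟩
          apply h4
          have h6 : m * s' = m * s := by omega
          rw [← Nat.eq_of_mul_eq_mul_left (Nat.pos_of_ne_zero H.m0) h6]
          exact hs'
      · rw [if_neg h3, if_neg]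
        rintro ⟨s', hs', h5⟩
        exact h3 ⟨s', by omega⟩
    · rw [if_neg h2, if_neg]
      rintro ⟨s', hs', h5⟩
      omega
  rw [Finset.sum_congr rfl h1]
  by_cases hn : n ∈ glue m y S
  · rw [coeff_hil_mem hn]
    obtain ⟨s, hs, k, hk, hsk⟩ := H.repr hn
    rw [Finset.sum_eq_single k]
    · rw [if_pos ⟨s, hs, hsk⟩]
    · intro k' hk' hne
      rw [if_neg]
      rintro ⟨s', hs', h5⟩
      exact hne (H.uniq (Finset.mem_range.1 hk') hk (h5.trans hsk.symm)).2
    · intro h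
      exact absurd (Finset.mem_range.2 hk) h
  · rw [coeff_hil_nmem hn]
    symm
    refine Finset.sum_eq_zero fun k _ => ?_
    rw [if_neg]
    rintro ⟨s', hs', h5⟩
    exact hn ⟨s', hs', k, h5⟩

theorem GH.hil_mul : hil (glue m y S) * (1 - X ^ y) = expand m H.m0 (hil S) * (1 - X ^ (m * y)) := by
  rw [H.hil_eq, mul_assoc]
  congr 1
  rw [mul_comm, mul_neg_geom_sum, ← pow_mul, mul_comm y m]

/-! ### The exponents -/

/-- the substitution `x ↦ x ^ m` on units -/
noncomputable def GH.phi : (ℤ⟦X⟧)ˣ →* (ℤ⟦X⟧)ˣ :=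
  Units.map ((expand m H.m0 : ℤ⟦X⟧ →ₐ[ℤ] ℤ⟦X⟧) : ℤ⟦X⟧ →* ℤ⟦X⟧)

theorem GH.phi_val (u : (ℤ⟦X⟧)ˣ) : ((H.phi u : (ℤ⟦X⟧)ˣ) : ℤ⟦X⟧) = expand m H.m0 (u : ℤ⟦X⟧) := rfl

theorem GH.phi_un (j : ℕ) : H.phi (un j) = un (m * j) := by
  apply Units.ext
  rw [H.phi_val]
  by_cases hj : j = 0
  · subst hj
    rw [mul_zero, un_zero, Units.val_one, map_one]
  · rw [un_val hj, un_val (Nat.mul_ne_zero H.m0 hj), map_sub, map_one, map_pow, expand_X, ← pow_mul]

theorem GH.phi_E (e : ℕ →₀ ℤ) : H.phi (E e) = E (e.mapDomain (m * ·)) := by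
  unfold E
  rw [map_finsuppProd, Finsupp.prod_mapDomain_index]
  · refine Finsupp.prod_congr fun j _ => ?_
    rw [map_zpow, H.phi_un]
  · intro j
    exact zpow_zero _
  · intro j k l
    exact zpow_add _ _ _

/-- the exponents of the gluing -/
noncomputable def gexp (m y : ℕ) (e : ℕ →₀ ℤ) : ℕ →₀ ℤ :=
  e.mapDomain (m * ·) + Finsupp.single (m * y) 1 - Finsupp.single y 1

theorem GH.hil_E {e : ℕ →₀ ℤ} (h : hil S = ((E e : (ℤ⟦X⟧)ˣ) : ℤ⟦X⟧)) :
    hil (glue m y S) = ((E (gexp m y e) : (ℤ⟦X⟧)ˣ) : ℤ⟦X⟧) := by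
  have h1 := H.hil_mul
  rw [h, ← H.phi_val, H.phi_E] at h1
  unfold gexp
  rw [E_sub, E_add, E_single, E_single, zpow_one, zpow_one, div_eq_mul_inv, Units.val_mul,
    Units.val_mul, un_val (Nat.mul_ne_zero H.m0 H.hy0), ← h1, ← un_val H.hy0, mul_assoc,
    Units.mul_inv, mul_one]

theorem GH.gexp_mul (e : ℕ →₀ ℤ) (z : ℕ) : gexp m y e (m * z) = e z + if z = y then 1 else 0 := by
  unfold gexp
  have hinj : Function.Injective (fun j : ℕ => m * j) := fun a b h =>
    Nat.eq_of_mul_eq_mul_left (Nat.pos_of_ne_zero H.m0) h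
  rw [Finsupp.sub_apply, Finsupp.add_apply, Finsupp.mapDomain_apply hinj e z, Finsupp.single_apply,
    Finsupp.single_apply]
  have h1 : ¬ y = m * z := fun h => H.ndvd ⟨z, h⟩
  rw [if_neg h1, sub_zero]
  congr 1
  by_cases h2 : z = y
  · rw [if_pos h2, if_pos (by rw [h2])]
  · rw [if_neg h2, if_neg fun h => h2 (hinj h).symm]

theorem GH.gexp_y (e : ℕ →₀ ℤ) : gexp m y e y = -1 := by
  unfold gexp
  rw [Finsupp.sub_apply, Finsupp.add_apply, Finsupp.mapDomain_of_notMem_range, Finsupp.single_apply,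
    Finsupp.single_apply, if_pos rfl, if_neg]
  · rfl
  · intro h
    exact H.ndvd ⟨y, h.symm⟩
  · rintro ⟨z, hz⟩
    exact H.ndvd ⟨z, hz.symm⟩

theorem GH.gexp_other (e : ℕ →₀ ℤ) (n : ℕ) (hn : n ≠ y) (h : ∀ z, n ≠ m * z) :
    gexp m y e n = 0 := by
  unfold gexp
  rw [Finsupp.sub_apply, Finsupp.add_apply, Finsupp.mapDomain_of_notMem_range, Finsupp.single_apply,
    Finsupp.single_apply, if_neg (Ne.symm hn), if_neg (Ne.symm (h y))]
  · rfl
  · rintro ⟨z, hz⟩
    exact h z hz.symm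

theorem GH.gexp_zero {e : ℕ →₀ ℤ} (h0 : e 0 = 0) : gexp m y e 0 = 0 := by
  have h1 := H.gexp_mul e 0
  rw [mul_zero, h0, if_neg H.hy0.symm] at h1
  exact h1

end

end Pool.Agent.CNS
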