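import Pool.Agent.Helper63_CNS.Pres

/-!
# The reduction: `Q1` implies that cyclotomic semigroups are complete intersections
-/

set_option autoImplicit false

namespace Pool.Agent.CNS

open PowerSeries

theorem atoms_finite {S : AddSubmonoid ℕ} (hS : NumSgp S) : (atoms S).Finite := by
  unfold NumSgp at hS
  obtain ⟨B, hB⟩ := hS.bddAbove
  have h1 : ∀ n, B < n → n ∈ S := by
    intro n hn
    by_contra h
    have := hB h
    omega
  refine (Set.finite_Iic (2 * B + 2)).subset fun a ha => ?_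
  rw [Set.mem_Iic]
  by_contra h
  push Not at h
  obtain ⟨-, -, h3⟩ := ha
  rcases h3 (B + 1) (h1 _ (by omega)) (a - (B + 1)) (h1 _ (by omega)) (by omega) with h4 | h4
  · omega
  · omega

theorem atoms_nonempty {S : AddSubmonoid ℕ} (hS : NumSgp S) : (atoms S).Nonempty := by
  unfold NumSgp at hS
  obtain ⟨B, hB⟩ := hS.bddAbove
  have h1 : B + 1 ∈ S := by
    by_contra h
    have := hB h
    omega
  obtain ⟨a, ha, -⟩ := exists_atom_le h1 (by omega)
  exact ⟨a, ha⟩

/-- the sum of the exponents of the Hilbert series -/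
theorem sum_hil {S : AddSubmonoid ℕ} (hS : NumSgp S) {e : ℕ →₀ ℤ} (h0 : e 0 = 0)
    (h : hil S = ((E e : (ℤ⟦X⟧)ˣ) : ℤ⟦X⟧)) : (e.sum fun _ k => k) = -1 := by
  have hpol : pol S = ((E (Finsupp.single 1 1 + e) : (ℤ⟦X⟧)ˣ) : ℤ⟦X⟧) := by
    unfold pol
    rw [E_add, Units.val_mul, ← h, E_single, zpow_one, un_val one_ne_zero, pow_one]
  have h00 : (Finsupp.single 1 1 + e : ℕ →₀ ℤ) 0 = 0 := by
    rw [Finsupp.add_apply, h0, Finsupp.single_apply, if_neg one_ne_zero, add_zero]
  have h1 := sum_exp hS h00 hpol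
  rw [Finsupp.sum_add_index' (fun _ => rfl) (fun _ _ _ => rfl), Finsupp.sum_single_index rfl] at h1
  omega

theorem hil_exp {S : AddSubmonoid ℕ} {e : ℕ →₀ ℤ} (h : hil S = ((E e : (ℤ⟦X⟧)ˣ) : ℤ⟦X⟧)) :
    IsExp (hil S) e := by
  rw [h]
  exact isExp_E e

/-- the sum of the exponents off the generators -/
theorem sum_off {S : AddSubmonoid ℕ} (hS : NumSgp S) {e : ℕ →₀ ℤ} (h0 : e 0 = 0)
    (h : hil S = ((E e : (ℤ⟦X⟧)ˣ) : ℤ⟦X⟧)) (A : Finset ℕ) (hA : (A : Set ℕ) = atoms S) :
    A ⊆ e.support ∧ ∑ j ∈ e.support \ A, e j + 1 = A.card := by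
  have hat : ∀ a ∈ A, e a = -1 := fun a ha =>
    exp_atom (hil_exp h) a (by rw [← hA]; exact ha)
  have hsub : A ⊆ e.support := by
    intro a ha
    rw [Finsupp.mem_support_iff, hat a ha]
    decide
  refine ⟨hsub, ?_⟩
  have h1 := sum_hil hS h0 h
  unfold Finsupp.sum at h1
  rw [← Finset.sum_sdiff hsub, Finset.sum_congr rfl hat, Finset.sum_const, nsmul_eq_mul] at h1
  linarith

/-- nonnegative exponents off the generators -/
theorem hci {S : AddSubmonoid ℕ} (hS : NumSgp S) {e : ℕ →₀ ℤ} (h0 : e 0 = 0)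
    (h : hil S = ((E e : (ℤ⟦X⟧)ˣ) : ℤ⟦X⟧)) (hpos : ∀ j, j ∉ atoms S → 0 ≤ e j) : HilbCI S := by
  classical
  obtain ⟨A, hA⟩ : ∃ A : Finset ℕ, (A : Set ℕ) = atoms S :=
    ⟨(atoms_finite hS).toFinset, Set.Finite.coe_toFinset _⟩
  obtain ⟨hsub, hsum⟩ := sum_off hS h0 h A hA
  have hat : ∀ a ∈ A, e a = -1 := fun a ha =>
    exp_atom (hil_exp h) a (by rw [← hA]; exact ha)
  have hoff : ∀ j ∈ e.support \ A, 0 ≤ e j := by
    intro j hj
    refine hpos j fun h2 => (Finset.mem_sdiff.1 hj).2 ?_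
    rw [← hA] at h2
    exact h2
  have hj0 : ∀ j ∈ e.support, j ≠ 0 := by
    rintro j hj rfl
    exact (Finsupp.mem_support_iff.1 hj) h0
  refine ⟨A, ∑ j ∈ e.support \ A, Multiset.replicate (e j).toNat j, hA, ?_, ?_, ?_⟩
  · intro n hn
    rw [Multiset.mem_sum] at hn
    obtain ⟨j, hj, hn⟩ := hn
    rw [Multiset.eq_of_mem_replicate hn]
    exact Nat.pos_of_ne_zero (hj0 j (Finset.mem_sdiff.1 hj).1)
  · rw [Multiset.card_sum]
    have h1 : ∑ j ∈ e.support \ A, Multiset.card (Multiset.replicate (e j).toNat j) =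
        ∑ j ∈ e.support \ A, (e j).toNat :=
      Finset.sum_congr rfl fun j _ => Multiset.card_replicate _ _
    rw [h1]
    have h2 : ((∑ j ∈ e.support \ A, (e j).toNat : ℕ) : ℤ) = ∑ j ∈ e.support \ A, e j := by
      rw [Nat.cast_sum]
      exact Finset.sum_congr rfl fun j hj => Int.toNat_of_nonneg (hoff j hj)
    omega
  · have h3 : ∀ s : Finset ℕ, (∀ j ∈ s, j ≠ 0) →
        ((∑ j ∈ s, Multiset.replicate (e j).toNat j).map fun n => (1 - X ^ n : ℤ⟦X⟧)).prod =
        ((∏ j ∈ s, un j ^ (e j).toNat : (ℤ⟦X⟧)ˣ) : ℤ⟦X⟧) := by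
      intro s
      induction s using Finset.induction_on with
      | empty => simp
      | insert a s ha ih =>
        intro hs
        rw [Finset.sum_insert ha, Finset.prod_insert ha, Multiset.map_add, Multiset.prod_add,
          Units.val_mul, ih fun j hj => hs j (Finset.mem_insert_of_mem hj), Multiset.map_replicate,
          Multiset.prod_replicate, Units.val_pow_eq_pow_val,
          un_val (hs a (Finset.mem_insert_self a s))]
    rw [h3 _ fun j hj => hj0 j (Finset.mem_sdiff.1 hj).1, h]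
    have h4 : ∏ a ∈ A, (1 - X ^ a : ℤ⟦X⟧) = ((∏ a ∈ A, un a : (ℤ⟦X⟧)ˣ) : ℤ⟦X⟧) := by
      rw [Units.coe_prod]
      exact Finset.prod_congr rfl fun a ha => (un_val (hj0 a (hsub ha))).symm
    rw [h4, ← Units.val_mul]
    congr 1
    rw [E_eq_prod e e.support (Finset.Subset.refl _), ← Finset.prod_sdiff hsub, mul_assoc,
      ← Finset.prod_mul_distrib]
    have h5 : ∏ i ∈ A, un i ^ e i * un i = 1 := by
      refine Finset.prod_eq_one fun i hi => ?_
      rw [hat i hi, zpow_neg, zpow_one, inv_mul_cancel]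
    rw [h5, mul_one]
    refine Finset.prod_congr rfl fun j hj => ?_
    rw [← zpow_natCast, Int.toNat_of_nonneg (hoff j hj)]

/-- the equality of `Q1` for all elements -/
def Good (S : AddSubmonoid ℕ) (e : ℕ → ℤ) : Prop :=
  ∀ b ∈ S, b ≠ 0 → b ∉ atoms S → e b = (nc S b : ℤ) - 1

/-- the hypothesis -/
def Q1H : Prop := ∀ S : AddSubmonoid ℕ, NumSgp S → IsCyc S → HilbCI S →
  ∀ b ∈ betti S, expSeq S b = (nc S b : ℤ) - 1

theorem gh_succ {S : AddSubmonoid ℕ} {b : ℕ} (hb : b ∈ S) (hb0 : b ≠ 0) (hba : b ∉ atoms S) :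
    GH (b + 1) b S :=
  ⟨by omega, by simp, hb, hb0, hba⟩

theorem good_base (HQ : Q1H) {S : AddSubmonoid ℕ} (hS : NumSgp S) {e : ℕ →₀ ℤ} (h0 : e 0 = 0)
    (h : hil S = ((E e : (ℤ⟦X⟧)ˣ) : ℤ⟦X⟧)) (hpos : ∀ j, j ∉ atoms S → 0 ≤ e j) : Good S e := by
  intro b hb hb0 hba
  have H := gh_succ hb hb0 hba
  have hS' := H.numSgp hS
  have h' := H.hil_E h
  have h0' := H.gexp_zero h0
  have hcyc := finite_cyc hS' h0' h'
  have hpos' : ∀ j, j ∉ atoms (glue (b + 1) b S) → 0 ≤ gexp (b + 1) b e j := by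
    intro j hj
    by_cases hj1 : ∃ z, j = (b + 1) * z
    · obtain ⟨z, rfl⟩ := hj1
      rw [H.gexp_mul]
      have h1 := hpos z fun h2 => hj (H.atom_mul.2 h2)
      split_ifs <;> omega
    · push Not at hj1
      by_cases hjy : j = b
      · subst hjy
        exact absurd H.atom_y hj
      · rw [H.gexp_other e j hjy hj1]
  have h2 := HQ _ hS' hcyc (hci hS' h0' h' hpos') ((b + 1) * b)
    ⟨H.mul_mem.2 hb, by
      rw [H.nc_y]
      have h3 : nc S b ≠ 0 := by
        obtain ⟨a, ha, s, hs, has⟩ := exists_atom_le hb hb0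
        unfold nc
        rw [Nat.card_ne_zero]
        exact ⟨⟨(nabla S b).connectedComponentMk ⟨a, ha, s, hs, has⟩⟩, finite_comp S b⟩
      omega⟩
  have h4 : (b + 1) * b ≠ 1 := by
    have h5 : 2 * 1 ≤ (b + 1) * b := Nat.mul_le_mul (by omega) (by omega)
    omega
  rw [expSeq_eq h' _ (Nat.mul_ne_zero H.m0 hb0), if_neg h4, H.gexp_mul, if_pos rfl, H.nc_y] at h2
  push_cast at h2
  omega

theorem good_ind (HQ : Q1H) (k : ℕ) : ∀ (S : AddSubmonoid ℕ) (e : ℕ →₀ ℤ) (l : Multiset ℕ),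
    NumSgp S → e 0 = 0 → hil S = ((E e : (ℤ⟦X⟧)ˣ) : ℤ⟦X⟧) → Multiset.card l = k →
    (∀ j, j ∉ atoms S → 0 ≤ e j + (l.count j : ℤ)) → Good S e := by
  induction k with
  | zero =>
    intro S e l hS h0 h hl hpos
    rw [Multiset.card_eq_zero] at hl
    subst hl
    refine good_base HQ hS h0 h fun j hj => ?_
    have h1 := hpos j hj
    rw [Multiset.count_zero] at h1
    omega
  | succ k ih =>
    intro S e l hS h0 h hl hpos
    obtain ⟨y, hyl⟩ := Multiset.card_pos_iff_exists_mem.1 (by rw [hl]; omega : 0 < Multiset.card l)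
    obtain ⟨l', rfl⟩ := Multiset.exists_cons_of_mem hyl
    rw [Multiset.card_cons] at hl
    by_cases hy : y ∈ S ∧ y ≠ 0 ∧ y ∉ atoms S
    · obtain ⟨hyS, hy0, hya⟩ := hy
      have H := gh_succ hyS hy0 hya
      have hg := ih (glue (y + 1) y S) (gexp (y + 1) y e) (l'.map fun j => (y + 1) * j)
        (H.numSgp hS) (H.gexp_zero h0) (H.hil_E h) (by rw [Multiset.card_map]; omega) ?_
      · intro b hb hb0 hba
        have h1 := hg ((y + 1) * b) (H.mul_mem.2 hb) (Nat.mul_ne_zero H.m0 hb0)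
          (fun h2 => hba (H.atom_mul.1 h2))
        rw [H.gexp_mul] at h1
        by_cases hby : b = y
        · subst hby
          rw [if_pos rfl, H.nc_y] at h1
          push_cast at h1
          omega
        · rw [if_neg hby, H.nc_ne hb hb0 hby] at h1
          omega
      · intro j hj
        by_cases hj1 : ∃ z, j = (y + 1) * z
        · obtain ⟨z, rfl⟩ := hj1
          have h1 := hpos z fun h2 => hj (H.atom_mul.2 h2)
          have h2 : (l'.map fun j => (y + 1) * j).count ((y + 1) * z) = l'.count z :=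
            Multiset.count_map_eq_count' (fun j => (y + 1) * j) l' (fun a b hab =>
              Nat.eq_of_mul_eq_mul_left (by omega) hab) z
          rw [H.gexp_mul, h2]
          rw [Multiset.count_cons] at h1
          by_cases hzy : z = y
          · rw [if_pos hzy] at h1 ⊢
            push_cast at h1
            omega
          · rw [if_neg hzy] at h1 ⊢
            push_cast at h1
            omega
        · push Not at hj1
          by_cases hjy : j = y
          · subst hjy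
            exact absurd H.atom_y hj
          · rw [H.gexp_other e j hjy hj1]
            omega
    · refine ih S e l' hS h0 h (by omega) fun j hj => ?_
      have h1 := hpos j hj
      rw [Multiset.count_cons] at h1
      by_cases hjy : j = y
      · subst hjy
        have h2 : e j = 0 := by
          by_cases hj0 : j = 0
          · rw [hj0, h0]
          · exact exp_gap (hil_exp h) j fun h3 => hy ⟨h3, hj0, hj⟩
        omega
      · rw [if_neg hjy] at h1
        exact h1

theorem good_of (HQ : Q1H) {S : AddSubmonoid ℕ} (hS : NumSgp S) {e : ℕ →₀ ℤ} (h0 : e 0 = 0)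
    (h : hil S = ((E e : (ℤ⟦X⟧)ˣ) : ℤ⟦X⟧)) : Good S e := by
  classical
  refine good_ind HQ _ S e (∑ j ∈ e.support, Multiset.replicate (-e j).toNat j) hS h0 h rfl
    fun j _ => ?_
  rw [Multiset.count_sum']
  have h1 : ∑ x ∈ e.support, (Multiset.replicate (-e x).toNat x).count j = (-e j).toNat := by
    by_cases hj : j ∈ e.support
    · rw [Finset.sum_eq_single j]
      · rw [Multiset.count_replicate_self]
      · intro b _ hb
        rw [Multiset.count_replicate, if_neg hb]
      · intro h2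
        exact absurd hj h2
    · rw [Finsupp.notMem_support_iff] at hj
      rw [hj]
      refine Finset.sum_eq_zero fun b hb => ?_
      rw [Multiset.count_replicate, if_neg]
      rintro rfl
      exact (Finsupp.mem_support_iff.1 hb) hj
  rw [h1]
  omega

theorem nc_le_one {S : AddSubmonoid ℕ} {b : ℕ} (h : b ∉ S ∨ b = 0 ∨ b ∈ atoms S) : nc S b ≤ 1 := by
  unfold nc
  haveI : Subsingleton (Vert S b) := by
    constructor
    intro x y
    obtain ⟨s, hs, hx⟩ := x.2.2
    obtain ⟨t, ht, hy⟩ := y.2.2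
    rcases h with h | h | h
    · exact absurd (by rw [← hx]; exact S.add_mem x.2.1.1 hs) h
    · have h1 := x.2.1.2.1
      omega
    · have hx1 : s = 0 := (h.2.2 x.1 x.2.1.1 s hs hx).resolve_left x.2.1.2.1
      have hy1 : t = 0 := (h.2.2 y.1 y.2.1.1 t ht hy).resolve_left y.2.1.2.1
      apply Subtype.ext
      omega
  haveI : Subsingleton (nabla S b).ConnectedComponent := by
    constructor
    intro c d
    induction c using Quot.ind with
    | _ x =>
      induction d using Quot.ind with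
      | _ y => rw [Subsingleton.elim x y]
  exact Finite.card_le_one_iff_subsingleton.2 inferInstance

theorem isCI_of {S : AddSubmonoid ℕ} (hS : NumSgp S) {e : ℕ →₀ ℤ} (h0 : e 0 = 0)
    (h : hil S = ((E e : (ℤ⟦X⟧)ˣ) : ℤ⟦X⟧)) (hg : Good S e) : IsCI S := by
  classical
  obtain ⟨A, hA⟩ : ∃ A : Finset ℕ, (A : Set ℕ) = atoms S :=
    ⟨(atoms_finite hS).toFinset, Set.Finite.coe_toFinset _⟩
  obtain ⟨hsub, hsum⟩ := sum_off hS h0 h A hA
  have hmemA : ∀ j, j ∈ A ↔ j ∈ atoms S := fun j => by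
    rw [← hA]
    exact Iff.rfl
  have hsupp : ∀ j ∈ e.support, j ∈ S ∧ j ≠ 0 := by
    intro j hj
    rw [Finsupp.mem_support_iff] at hj
    refine ⟨?_, ?_⟩
    · by_contra h2
      exact hj (exp_gap (hil_exp h) j h2)
    · rintro rfl
      exact hj h0
  have hB : ∀ b, b ∉ e.support → nc S b ≤ 1 := by
    intro b hb
    rw [Finsupp.notMem_support_iff] at hb
    by_cases h1 : b ∉ S ∨ b = 0 ∨ b ∈ atoms S
    · exact nc_le_one h1
    · push Not at h1
      have h2 := hg b h1.1 h1.2.1 h1.2.2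
      omega
  have hAne : 1 ≤ A.card := by
    obtain ⟨a, ha⟩ := atoms_nonempty hS
    exact Finset.card_pos.2 ⟨a, (hmemA a).2 ha⟩
  have h3 : ∑ b ∈ e.support, (nc S b - 1) ≤ A.card - 1 := by
    rw [← Finset.sum_sdiff hsub]
    have h4 : ∑ b ∈ A, (nc S b - 1) = 0 := by
      refine Finset.sum_eq_zero fun b hb => ?_
      have := nc_le_one (S := S) (b := b) (Or.inr (Or.inr ((hmemA b).1 hb)))
      omega
    have h5 : ((∑ b ∈ e.support \ A, (nc S b - 1) : ℕ) : ℤ) = ∑ b ∈ e.support \ A, e b := by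
      rw [Nat.cast_sum]
      refine Finset.sum_congr rfl fun b hb => ?_
      have hb1 := hsupp b (Finset.mem_sdiff.1 hb).1
      have h6 := hg b hb1.1 hb1.2 fun h7 => (Finset.mem_sdiff.1 hb).2 ((hmemA b).2 h7)
      have h7 : nc S b ≠ 0 := by
        obtain ⟨a, ha, s, hs, has⟩ := exists_atom_le hb1.1 hb1.2
        unfold nc
        rw [Nat.card_ne_zero]
        exact ⟨⟨(nabla S b).connectedComponentMk ⟨a, ha, s, hs, has⟩⟩, finite_comp S b⟩
      omega
    omega
  obtain ⟨ρ, hρ, hρ2⟩ := exists_pres (atoms_nonempty hS) e.support hB (A.card - 1) h3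
  refine ⟨ρ, ?_, hρ2⟩
  rw [hρ, ← hA, Set.ncard_coe_finset]
  omega

/-- the main theorem -/
theorem main (HQ : Q1H) (S : AddSubmonoid ℕ) (hS : NumSgp S) (hc : IsCyc S) :
    (∀ b ∈ S, b ≠ 0 → b ∉ atoms S → expSeq S b = (nc S b : ℤ) - 1) ∧ IsCI S := by
  obtain ⟨e, h0, h⟩ := cyc_finite hc
  have hg := good_of HQ hS h0 h
  refine ⟨fun b hb hb0 hba => ?_, isCI_of hS h0 h hg⟩
  have hb1 : b ≠ 1 := by
    rintro rfl
    apply hba
    refine ⟨hb, one_ne_zero, fun x _ y _ hxy => by omega⟩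
  rw [expSeq_eq h b hb0, if_neg hb1, add_zero]
  exact hg b hb hb0 hba

end Pool.Agent.CNS
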