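import Pool.Agent.Helper63_CNS.Comp

/-!
# Presentations from the graphs
-/

set_option autoImplicit false

namespace Pool.Agent.CNS

section

variable {S : AddSubmonoid ℕ}

theorem val_zero : val S 0 = 0 := Finsupp.sum_zero_index

theorem val_add (u v : atoms S →₀ ℕ) : val S (u + v) = val S u + val S v := by
  unfold val
  refine Finsupp.sum_add_index' (fun a => zero_mul _) (fun a k l => add_mul _ _ _)

theorem val_single (a : atoms S) (k : ℕ) : val S (Finsupp.single a k) = k * (a : ℕ) := by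
  unfold val
  exact Finsupp.sum_single_index (zero_mul _)

theorem val_one (a : atoms S) : val S (Finsupp.single a 1) = (a : ℕ) := by
  rw [val_single, one_mul]

theorem exists_fact {n : ℕ} (hn : n ∈ S) : ∃ u : atoms S →₀ ℕ, val S u = n := by
  induction n using Nat.strong_induction_on with
  | _ n ih =>
    by_cases h0 : n = 0
    · exact ⟨0, by rw [val_zero, h0]⟩
    · obtain ⟨a, ha, s, hs, has⟩ := exists_atom_le hn h0
      have ha0 := ha.2.1
      obtain ⟨u, hu⟩ := ih s (by omega) hs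
      refine ⟨Finsupp.single ⟨a, ha⟩ 1 + u, ?_⟩
      rw [val_add, val_one, hu]
      exact has

theorem val_mem (u : atoms S →₀ ℕ) : val S u ∈ S := by
  unfold val Finsupp.sum
  refine S.sum_mem fun a _ => ?_
  show u a * (a : ℕ) ∈ S
  rw [mul_comm]
  exact mem_mul a.2.1 _

/-- the vertex `x` occurs in the factorization `u` of `b` -/
def Has {b : ℕ} (u : atoms S →₀ ℕ) (x : Vert S b) : Prop :=
  val S u = b ∧ ∃ u', u = Finsupp.single ⟨x.1, x.2.1⟩ 1 + u'

theorem has_exists {b : ℕ} (x : Vert S b) : ∃ u, Has u x := by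
  obtain ⟨s, hs, h⟩ := x.2.2
  obtain ⟨u', hu'⟩ := exists_fact hs
  refine ⟨Finsupp.single ⟨x.1, x.2.1⟩ 1 + u', ?_, u', rfl⟩
  rw [val_add, val_one, hu']
  exact h

theorem exists_has {b : ℕ} (u : atoms S →₀ ℕ) (hu : val S u = b) (hb : b ≠ 0) :
    ∃ x : Vert S b, Has u x := by
  have hu0 : u ≠ 0 := by
    rintro rfl
    rw [val_zero] at hu
    exact hb hu.symm
  obtain ⟨a, ha⟩ := Finsupp.ne_iff.1 hu0
  rw [Finsupp.zero_apply] at ha
  have h1 : u = Finsupp.single a 1 + (u - Finsupp.single a 1) := by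
    symm
    apply add_tsub_cancel_of_le
    rw [Finsupp.single_le_iff]
    omega
  have h2 : (a : ℕ) + val S (u - Finsupp.single a 1) = b := by
    rw [← hu]
    conv_rhs => rw [h1, val_add, val_one]
  exact ⟨⟨a.1, a.2, _, val_mem _, h2⟩, hu, _, h1⟩

theorem has_two {b : ℕ} {x y : Vert S b} (h : (nabla S b).Adj x y) : ∃ w, Has w x ∧ Has w y := by
  obtain ⟨-, s, hs, h2⟩ := h
  obtain ⟨u', hu'⟩ := exists_fact hs
  have h3 : val S (Finsupp.single ⟨x.1, x.2.1⟩ 1 + (Finsupp.single ⟨y.1, y.2.1⟩ 1 + u')) = b := by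
    rw [val_add, val_add, val_one, val_one, hu', ← add_assoc]
    exact h2
  exact ⟨Finsupp.single ⟨x.1, x.2.1⟩ 1 + (Finsupp.single ⟨y.1, y.2.1⟩ 1 + u'),
    ⟨h3, _, rfl⟩, h3, _, add_left_comm _ _ _⟩

/-- the congruence generated by a set of pairs -/
noncomputable def cg (ρ : Finset ((atoms S →₀ ℕ) × (atoms S →₀ ℕ))) : AddCon (atoms S →₀ ℕ) :=
  addConGen (fun x y => (x, y) ∈ ρ)

theorem cg_val {ρ : Finset ((atoms S →₀ ℕ) × (atoms S →₀ ℕ))}
    (h : ∀ p ∈ ρ, val S p.1 = val S p.2) {u v : atoms S →₀ ℕ} (huv : cg ρ u v) :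
    val S u = val S v := by
  have h1 : cg ρ ≤ AddCon.mk ⟨fun x y => val S x = val S y, fun _ => rfl, fun h => h.symm,
      fun h h' => h.trans h'⟩ (fun {a b c d} h h' => by
        show val S (a + c) = val S (b + d)
        rw [val_add, val_add]
        exact congrArg₂ _ h h') := by
    refine AddCon.addConGen_le.2 fun x y hxy => ?_
    exact h (x, y) hxy
  exact h1 huv

theorem gen {ρ : Finset ((atoms S →₀ ℕ) × (atoms S →₀ ℕ))}
    (h : ∀ b : ℕ, ∀ x y : Vert S b, ∃ (u v : atoms S →₀ ℕ) (x' y' : Vert S b),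
      Has u x' ∧ Has v y' ∧ (nabla S b).Reachable x x' ∧ (nabla S b).Reachable y y' ∧ cg ρ u v) :
    ∀ (b : ℕ) (u v : atoms S →₀ ℕ), val S u = b → val S v = b → cg ρ u v := by
  intro b
  induction b using Nat.strong_induction_on with
  | _ b ih =>
    intro u v hu hv
    by_cases hb : b = 0
    · subst hb
      have h1 : ∀ w : atoms S →₀ ℕ, val S w = 0 → w = 0 := by
        intro w hw
        by_contra hw0
        obtain ⟨a, ha⟩ := Finsupp.ne_iff.1 hw0
        rw [Finsupp.zero_apply] at ha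
        have h2 : w = Finsupp.single a 1 + (w - Finsupp.single a 1) := by
          symm
          apply add_tsub_cancel_of_le
          rw [Finsupp.single_le_iff]
          omega
        rw [h2, val_add, val_one] at hw
        have h3 := a.2.2.1
        omega
      rw [h1 u hu, h1 v hv]
      exact (cg ρ).refl 0
    · -- a common vertex
      have hA : ∀ (u v : atoms S →₀ ℕ) (x : Vert S b), Has u x → Has v x → cg ρ u v := by
        rintro u v x ⟨hu, u', rfl⟩ ⟨hv, v', rfl⟩
        rw [val_add, val_one] at hu hv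
        have h3 : x.1 ≠ 0 := x.2.1.2.1
        have h4 : val S v' = val S u' := Nat.add_left_cancel (hv.trans hu.symm)
        have h5 : x.1 + val S u' = b := hu
        exact (cg ρ).add ((cg ρ).refl _) (ih (val S u') (by omega) u' v' rfl h4)
      have hB : ∀ (x y : Vert S b), (nabla S b).Adj x y → ∀ (u v : atoms S →₀ ℕ),
          Has u x → Has v y → cg ρ u v := by
        intro x y hxy u v hu hv
        obtain ⟨w, hw1, hw2⟩ := has_two hxy
        exact (cg ρ).trans (hA u w x hu hw1) (hA w v y hw2 hv)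
      have hC : ∀ (x y : Vert S b), (nabla S b).Reachable x y → ∀ (u v : atoms S →₀ ℕ),
          Has u x → Has v y → cg ρ u v := by
        rintro x y ⟨p⟩
        induction p with
        | nil => exact fun u v hu hv => hA u v _ hu hv
        | cons hadj _ ih2 =>
          intro u v hu hv
          obtain ⟨w, hw⟩ := has_exists _
          exact (cg ρ).trans (hB _ _ hadj u w hu hw) (ih2 w v hw hv)
      obtain ⟨x, hx⟩ := exists_has u hu hb
      obtain ⟨y, hy⟩ := exists_has v hv hb
      obtain ⟨u', v', x', y', h1, h2, h3, h4, h5⟩ := h b x y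
      exact (cg ρ).trans (hC x x' h3 u u' hx h1) ((cg ρ).trans h5
        ((cg ρ).symm (hC y y' h4 v v' hy h2)))

/-- the relations in degree `b` -/
theorem exists_rho (S : AddSubmonoid ℕ) (b : ℕ) :
    ∃ ρ : Finset ((atoms S →₀ ℕ) × (atoms S →₀ ℕ)), ρ.card ≤ nc S b - 1 ∧
      (∀ p ∈ ρ, val S p.1 = val S p.2) ∧
      ∀ x y : Vert S b, ∃ (u v w : atoms S →₀ ℕ) (x' y' : Vert S b),
        Has u x' ∧ Has v y' ∧ (nabla S b).Reachable x x' ∧ (nabla S b).Reachable y y' ∧
          ((u, w) ∈ ρ ∨ u = w) ∧ ((v, w) ∈ ρ ∨ v = w) := by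
  classical
  haveI : Fintype (nabla S b).ConnectedComponent := Fintype.ofFinite _
  have hz : ∀ c : (nabla S b).ConnectedComponent, ∃ (u : atoms S →₀ ℕ) (x : Vert S b),
      Has u x ∧ (nabla S b).connectedComponentMk x = c := by
    intro c
    induction c using Quot.ind with
    | _ x =>
      obtain ⟨u, hu⟩ := has_exists x
      exact ⟨u, x, hu, rfl⟩
  choose z xz hzx hzc using hz
  rcases isEmpty_or_nonempty (Vert S b) with hE | ⟨⟨x0⟩⟩
  · exact ⟨∅, by simp, by simp, fun x => (hE.false x).elim⟩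
  · obtain ⟨c0, hc0⟩ : ∃ c0, c0 = (nabla S b).connectedComponentMk x0 := ⟨_, rfl⟩
    refine ⟨(Finset.univ.erase c0).image fun c => (z c, z c0), ?_, ?_, ?_⟩
    · refine Finset.card_image_le.trans ?_
      rw [Finset.card_erase_of_mem (Finset.mem_univ _), Finset.card_univ]
      unfold nc
      rw [Nat.card_eq_fintype_card]
    · intro p hp
      obtain ⟨c, -, rfl⟩ := Finset.mem_image.1 hp
      exact (hzx c).1.trans (hzx c0).1.symm
    · intro x y
      obtain ⟨cx, hcx⟩ : ∃ cx, cx = (nabla S b).connectedComponentMk x := ⟨_, rfl⟩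
      obtain ⟨cy, hcy⟩ : ∃ cy, cy = (nabla S b).connectedComponentMk y := ⟨_, rfl⟩
      have h1 : ∀ c : (nabla S b).ConnectedComponent,
          (z c, z c0) ∈ (Finset.univ.erase c0).image (fun c => (z c, z c0)) ∨ z c = z c0 := by
        intro c
        by_cases hc : c = c0
        · right; rw [hc]
        · left
          exact Finset.mem_image.2 ⟨c, Finset.mem_erase.2 ⟨hc, Finset.mem_univ _⟩, rfl⟩
      refine ⟨z cx, z cy, z c0, xz cx, xz cy, hzx cx, hzx cy, ?_, ?_, h1 cx, h1 cy⟩
      · exact SimpleGraph.ConnectedComponent.exact (hcx.symm.trans (hzc cx).symm)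
      · exact SimpleGraph.ConnectedComponent.exact (hcy.symm.trans (hzc cy).symm)

/-- padding with trivial pairs -/
theorem pad {T : Type*} [Infinite T] (ρ : Finset (T × T)) {n : ℕ} (hn : ρ.card ≤ n) :
    ∃ ρ' : Finset (T × T), ρ'.card = n ∧ ρ ⊆ ρ' ∧ ∀ p ∈ ρ', p ∈ ρ ∨ p.1 = p.2 := by
  classical
  have hinf : (Set.range (fun t : T => (t, t)) \ (ρ : Set (T × T))).Infinite := by
    refine Set.Infinite.sdiff (Set.infinite_range_of_injective fun a b h => ?_) ρ.finite_toSet
    exact (Prod.mk.inj h).1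
  obtain ⟨t, ht, htc⟩ := hinf.exists_subset_card_eq (n - ρ.card)
  refine ⟨ρ ∪ t, ?_, Finset.subset_union_left, fun p hp => ?_⟩
  · rw [Finset.card_union_of_disjoint, htc]
    · omega
    · rw [Finset.disjoint_left]
      intro p hp hpt
      exact (ht hpt).2 hp
  · rcases Finset.mem_union.1 hp with h | h
    · left; exact h
    · right
      obtain ⟨s, hs⟩ := (ht h).1
      rw [← hs]

theorem exists_pres (hne : (atoms S).Nonempty) (B : Finset ℕ) (hB : ∀ b, b ∉ B → nc S b ≤ 1) (n : ℕ)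
    (hn : ∑ b ∈ B, (nc S b - 1) ≤ n) :
    ∃ ρ : Finset ((atoms S →₀ ℕ) × (atoms S →₀ ℕ)), ρ.card = n ∧
      ∀ u v : atoms S →₀ ℕ, addConGen (fun x y => (x, y) ∈ ρ) u v ↔ val S u = val S v := by
  classical
  choose rf h1 h2 h3 using exists_rho S
  haveI : Nonempty (atoms S) := hne.to_subtype
  have hcard : (B.biUnion rf).card ≤ n :=
    (Finset.card_biUnion_le.trans (Finset.sum_le_sum fun b _ => h1 b)).trans hn
  obtain ⟨ρ, hρ, hsub, hmem⟩ := pad (B.biUnion rf) hcard
  refine ⟨ρ, hρ, fun u v => ⟨fun h => ?_, fun h => ?_⟩⟩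
  · refine cg_val (ρ := ρ) (fun p hp => ?_) h
    rcases hmem p hp with h4 | h4
    · obtain ⟨b, -, hb⟩ := Finset.mem_biUnion.1 h4
      exact h2 b p hb
    · rw [h4]
  · refine gen (ρ := ρ) (fun b x y => ?_) _ u v rfl h.symm
    obtain ⟨u, v, w, x', y', hu, hv, hx, hy, huw, hvw⟩ := h3 b x y
    refine ⟨u, v, x', y', hu, hv, hx, hy, ?_⟩
    have hcg : ∀ u : atoms S →₀ ℕ, ((u, w) ∈ rf b ∨ u = w) → cg ρ u w := by
      rintro u (hu | rfl)
      · by_cases hb : b ∈ B
        · exact AddConGen.Rel.of _ _ (hsub (Finset.mem_biUnion.2 ⟨b, hb, hu⟩))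
        · exfalso
          have h4 := h1 b
          have h5 := hB b hb
          have h6 : (rf b).card = 0 := by omega
          rw [Finset.card_eq_zero] at h6
          rw [h6] at hu
          simp at hu
      · exact (cg ρ).refl u
    exact (cg ρ).trans (hcg u huw) ((cg ρ).symm (hcg v hvw))

end

end Pool.Agent.CNS
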