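import Pool.Agent.Helper63_CNS.Defs

/-!
# Products of powers of `1 - X ^ j`
-/

set_option autoImplicit false

namespace Pool.Agent.CNS

open PowerSeries

/-- `a ≡ b` modulo `X ^ n` -/
def Cg (n : ℕ) (a b : ℤ⟦X⟧) : Prop := X ^ n ∣ a - b

theorem Cg.refl (n : ℕ) (a : ℤ⟦X⟧) : Cg n a a := by
  unfold Cg
  rw [sub_self]
  exact dvd_zero _

theorem Cg.symm {n : ℕ} {a b : ℤ⟦X⟧} (h : Cg n a b) : Cg n b a := by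
  unfold Cg at h ⊢
  rw [← neg_sub]
  exact (dvd_neg).mpr h

theorem Cg.trans {n : ℕ} {a b c : ℤ⟦X⟧} (h : Cg n a b) (h' : Cg n b c) : Cg n a c := by
  unfold Cg at h h' ⊢
  have := dvd_add h h'
  rwa [sub_add_sub_cancel] at this

theorem Cg.mul {n : ℕ} {a b c d : ℤ⟦X⟧} (h : Cg n a b) (h' : Cg n c d) :
    Cg n (a * c) (b * d) := by
  unfold Cg at h h' ⊢
  have e : a * c - b * d = (a - b) * c + b * (c - d) := by ring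
  rw [e]
  exact dvd_add (h.mul_right _) (h'.mul_left _)

theorem Cg.mono {m n : ℕ} (hmn : m ≤ n) {a b : ℤ⟦X⟧} (h : Cg n a b) : Cg m a b :=
  (pow_dvd_pow _ hmn).trans h

theorem Cg.coeff {n : ℕ} {a b : ℤ⟦X⟧} (h : Cg (n + 1) a b) {k : ℕ} (hk : k ≤ n) :
    coeff k a = coeff k b := by
  have h1 := (X_pow_dvd_iff.1 h) k (by omega)
  rw [map_sub] at h1
  exact sub_eq_zero.1 h1

theorem cg_of_coeff {n : ℕ} {a b : ℤ⟦X⟧} (h : ∀ k < n, PowerSeries.coeff k a = PowerSeries.coeff k b) :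
    Cg n a b := by
  refine X_pow_dvd_iff.2 fun k hk => ?_
  rw [map_sub, h k hk, sub_self]

theorem Cg.prod {ι : Type*} (s : Finset ι) {n : ℕ} {f g : ι → ℤ⟦X⟧} (h : ∀ i ∈ s, Cg n (f i) (g i)) :
    Cg n (∏ i ∈ s, f i) (∏ i ∈ s, g i) := by
  classical
  induction s using Finset.induction_on with
  | empty => exact Cg.refl _ _
  | insert a s ha ih =>
    rw [Finset.prod_insert ha, Finset.prod_insert ha]
    exact (h a (Finset.mem_insert_self a s)).mul (ih fun i hi => h i (Finset.mem_insert_of_mem hi))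

/-! ### The units -/

theorem cc_one_sub (j : ℕ) (hj : j ≠ 0) : constantCoeff (1 - X ^ j : ℤ⟦X⟧) = ((1 : ℤˣ) : ℤ) := by
  rw [map_sub, map_one, map_pow, constantCoeff_X, zero_pow hj, sub_zero, Units.val_one]

/-- the unit `1 - X ^ j` -/
noncomputable def un (j : ℕ) : (ℤ⟦X⟧)ˣ :=
  if hj : j = 0 then 1 else
    { val := 1 - X ^ j
      inv := invOfUnit (1 - X ^ j) 1
      val_inv := mul_invOfUnit _ _ (cc_one_sub j hj)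
      inv_val := by rw [mul_comm]; exact mul_invOfUnit _ _ (cc_one_sub j hj) }

theorem un_zero : un 0 = 1 := by
  unfold un
  rw [dif_pos rfl]

theorem un_val {j : ℕ} (hj : j ≠ 0) : ((un j : (ℤ⟦X⟧)ˣ) : ℤ⟦X⟧) = 1 - X ^ j := by
  unfold un
  rw [dif_neg hj]

theorem un_inv {j : ℕ} (hj : j ≠ 0) : ((un j)⁻¹ : (ℤ⟦X⟧)ˣ).1 = invOfUnit (1 - X ^ j) 1 := by
  unfold un
  rw [dif_neg hj]
  rfl

theorem pw_eq {j : ℕ} (hj : j ≠ 0) (k : ℤ) : pw j k = ((un j ^ k : (ℤ⟦X⟧)ˣ) : ℤ⟦X⟧) := by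
  unfold pw
  rw [← un_inv hj, ← un_val hj, ← Units.val_pow_eq_pow_val, ← Units.val_pow_eq_pow_val,
    ← Units.val_mul]
  congr 1
  rcases le_or_gt 0 k with h | h
  · obtain ⟨n, rfl⟩ := Int.eq_ofNat_of_zero_le h
    have h1 : (-(n : ℤ)).toNat = 0 := by omega
    rw [h1, pow_zero, mul_one, zpow_natCast]
    congr 1
  · obtain ⟨n, hn⟩ := Int.eq_ofNat_of_zero_le (show 0 ≤ -k by omega)
    have hk : k = -(n : ℤ) := by omega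
    subst hk
    have h1 : (-(n : ℤ)).toNat = 0 := by omega
    have h2 : (- -(n : ℤ)).toNat = n := by omega
    rw [h1, h2, pow_zero, one_mul, zpow_neg, zpow_natCast, inv_pow]

/-- the product -/
noncomputable def E (e : ℕ →₀ ℤ) : (ℤ⟦X⟧)ˣ := e.prod fun j k => un j ^ k

theorem E_zero : E 0 = 1 := Finsupp.prod_zero_index

theorem E_add (e f : ℕ →₀ ℤ) : E (e + f) = E e * E f :=
  Finsupp.prod_add_index' (fun _ => zpow_zero _) fun _ _ _ => zpow_add _ _ _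

theorem E_neg (e : ℕ →₀ ℤ) : E (-e) = (E e)⁻¹ := by
  rw [_root_.eq_inv_iff_mul_eq_one, ← E_add, neg_add_cancel, E_zero]

theorem E_sub (e f : ℕ →₀ ℤ) : E (e - f) = E e / E f := by
  rw [sub_eq_add_neg, E_add, E_neg, div_eq_mul_inv]

theorem E_single (j : ℕ) (k : ℤ) : E (Finsupp.single j k) = un j ^ k := by
  unfold E
  rw [Finsupp.prod_single_index (zpow_zero _)]

/-- the product over a finite set containing the support -/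
theorem E_eq_prod (e : ℕ →₀ ℤ) (s : Finset ℕ) (hs : e.support ⊆ s) :
    E e = ∏ j ∈ s, un j ^ e j := by
  unfold E
  exact Finsupp.prod_of_support_subset e hs _ fun _ _ => zpow_zero _

theorem un_cg {j n : ℕ} (h : n ≤ j) : Cg n ((un j : (ℤ⟦X⟧)ˣ) : ℤ⟦X⟧) 1 := by
  by_cases hj : j = 0
  · subst hj
    rw [un_zero, Units.val_one]
    exact Cg.refl _ _
  · rw [un_val hj]
    unfold Cg
    have e : (1 - X ^ j - 1 : ℤ⟦X⟧) = -X ^ j := by ring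
    rw [e]
    exact (dvd_neg).mpr (pow_dvd_pow _ h)

theorem Cg.inv {n : ℕ} {u v : (ℤ⟦X⟧)ˣ} (h : Cg n (u : ℤ⟦X⟧) v) :
    Cg n ((u⁻¹ : (ℤ⟦X⟧)ˣ) : ℤ⟦X⟧) ((v⁻¹ : (ℤ⟦X⟧)ˣ) : ℤ⟦X⟧) := by
  unfold Cg at h ⊢
  have e : ((u⁻¹ : (ℤ⟦X⟧)ˣ) : ℤ⟦X⟧) - ((v⁻¹ : (ℤ⟦X⟧)ˣ) : ℤ⟦X⟧) =
      -(((u⁻¹ : (ℤ⟦X⟧)ˣ) : ℤ⟦X⟧) * ((u : ℤ⟦X⟧) - v) * ((v⁻¹ : (ℤ⟦X⟧)ˣ) : ℤ⟦X⟧)) := by
    rw [mul_sub, sub_mul, Units.inv_mul, one_mul, mul_assoc, Units.mul_inv, mul_one]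
    ring
  rw [e]
  exact (dvd_neg).mpr ((h.mul_left _).mul_right _)

theorem Cg.pow {n : ℕ} {a b : ℤ⟦X⟧} (h : Cg n a b) (k : ℕ) : Cg n (a ^ k) (b ^ k) := by
  induction k with
  | zero =>
    rw [pow_zero, pow_zero]
    exact Cg.refl _ _
  | succ k ih =>
    rw [pow_succ, pow_succ]
    exact ih.mul h

theorem Cg.zpow {n : ℕ} {u v : (ℤ⟦X⟧)ˣ} (h : Cg n (u : ℤ⟦X⟧) v) (k : ℤ) :
    Cg n ((u ^ k : (ℤ⟦X⟧)ˣ) : ℤ⟦X⟧) ((v ^ k : (ℤ⟦X⟧)ˣ) : ℤ⟦X⟧) := by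
  rcases le_or_gt 0 k with h1 | h1
  · obtain ⟨m, rfl⟩ := Int.eq_ofNat_of_zero_le h1
    show Cg n ((u ^ ((m : ℕ) : ℤ) : (ℤ⟦X⟧)ˣ) : ℤ⟦X⟧) ((v ^ ((m : ℕ) : ℤ) : (ℤ⟦X⟧)ˣ) : ℤ⟦X⟧)
    rw [zpow_natCast, zpow_natCast, Units.val_pow_eq_pow_val, Units.val_pow_eq_pow_val]
    exact h.pow m
  · obtain ⟨m, hm⟩ := Int.eq_ofNat_of_zero_le (show 0 ≤ -k by omega)
    have hk : k = -(m : ℤ) := by omega
    subst hk
    rw [zpow_neg, zpow_neg]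
    apply Cg.inv
    rw [zpow_natCast, zpow_natCast, Units.val_pow_eq_pow_val, Units.val_pow_eq_pow_val]
    exact h.pow m

theorem un_zpow_cg {j n : ℕ} (h : n ≤ j) (k : ℤ) : Cg n ((un j ^ k : (ℤ⟦X⟧)ˣ) : ℤ⟦X⟧) 1 := by
  have h1 : Cg n ((un j : (ℤ⟦X⟧)ˣ) : ℤ⟦X⟧) ((1 : (ℤ⟦X⟧)ˣ) : ℤ⟦X⟧) := by
    rw [Units.val_one]
    exact un_cg h
  have h2 := h1.zpow k
  rwa [one_zpow, Units.val_one] at h2

/-- the first coefficient of `(1 - X ^ n) ^ k` -/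
theorem un_pow_cg {n : ℕ} (hn : n ≠ 0) (k : ℕ) :
    Cg (n + 1) ((un n ^ k : (ℤ⟦X⟧)ˣ) : ℤ⟦X⟧) (1 - (k : ℤ⟦X⟧) * X ^ n) := by
  induction k with
  | zero =>
    rw [pow_zero, Units.val_one, Nat.cast_zero, zero_mul, sub_zero]
    exact Cg.refl _ _
  | succ k ih =>
    rw [pow_succ, Units.val_mul, un_val hn]
    refine (ih.mul (Cg.refl _ _)).trans ?_
    unfold Cg
    have e : (1 - (k : ℤ⟦X⟧) * X ^ n) * (1 - X ^ n) - (1 - ((k + 1 : ℕ) : ℤ⟦X⟧) * X ^ n) =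
        X ^ (n + n) * (k : ℤ⟦X⟧) := by
      push_cast
      ring
    rw [e]
    exact (pow_dvd_pow _ (by omega)).mul_right _

theorem un_zpow_cg' {n : ℕ} (hn : n ≠ 0) (k : ℤ) :
    Cg (n + 1) ((un n ^ k : (ℤ⟦X⟧)ˣ) : ℤ⟦X⟧) (1 - (k : ℤ⟦X⟧) * X ^ n) := by
  rcases le_or_gt 0 k with h1 | h1
  · obtain ⟨m, rfl⟩ := Int.eq_ofNat_of_zero_le h1
    show Cg (n + 1) ((un n ^ ((m : ℕ) : ℤ) : (ℤ⟦X⟧)ˣ) : ℤ⟦X⟧) (1 - (((m : ℕ) : ℤ) : ℤ⟦X⟧) * X ^ n)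
    rw [zpow_natCast, Int.cast_natCast]
    exact un_pow_cg hn m
  · obtain ⟨m, hm⟩ := Int.eq_ofNat_of_zero_le (show 0 ≤ -k by omega)
    have hk : k = -(m : ℤ) := by omega
    subst hk
    have h2 := un_pow_cg hn m
    have h3 : Cg (n + 1) (1 * ((un n ^ (-(m : ℤ)) : (ℤ⟦X⟧)ˣ) : ℤ⟦X⟧))
        ((1 - (m : ℤ⟦X⟧) * X ^ n) * (1 + (m : ℤ⟦X⟧) * X ^ n) *
          ((un n ^ (-(m : ℤ)) : (ℤ⟦X⟧)ˣ) : ℤ⟦X⟧)) := by
      refine Cg.mul ?_ (Cg.refl _ _)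
      unfold Cg
      have e : (1 : ℤ⟦X⟧) - (1 - (m : ℤ⟦X⟧) * X ^ n) * (1 + (m : ℤ⟦X⟧) * X ^ n) =
          X ^ (n + n) * ((m : ℤ⟦X⟧) * (m : ℤ⟦X⟧)) := by ring
      rw [e]
      exact (pow_dvd_pow _ (by omega)).mul_right _
    have h4 : Cg (n + 1) ((1 - (m : ℤ⟦X⟧) * X ^ n) * (1 + (m : ℤ⟦X⟧) * X ^ n) *
          ((un n ^ (-(m : ℤ)) : (ℤ⟦X⟧)ˣ) : ℤ⟦X⟧))
        (((un n ^ m : (ℤ⟦X⟧)ˣ) : ℤ⟦X⟧) * (1 + (m : ℤ⟦X⟧) * X ^ n) *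
          ((un n ^ (-(m : ℤ)) : (ℤ⟦X⟧)ˣ) : ℤ⟦X⟧)) :=
      (h2.symm.mul (Cg.refl _ _)).mul (Cg.refl _ _)
    have h5 : ((un n ^ m : (ℤ⟦X⟧)ˣ) : ℤ⟦X⟧) * (1 + (m : ℤ⟦X⟧) * X ^ n) *
          ((un n ^ (-(m : ℤ)) : (ℤ⟦X⟧)ˣ) : ℤ⟦X⟧) = 1 + (m : ℤ⟦X⟧) * X ^ n := by
      rw [zpow_neg, zpow_natCast, mul_comm ((un n ^ m : (ℤ⟦X⟧)ˣ) : ℤ⟦X⟧), mul_assoc, Units.mul_inv,
        mul_one]
    rw [one_mul] at h3
    rw [h5] at h4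
    refine (h3.trans h4).trans ?_
    have e : (1 - (((-(m : ℤ)) : ℤ) : ℤ⟦X⟧) * X ^ n : ℤ⟦X⟧) = 1 + (m : ℤ⟦X⟧) * X ^ n := by
      push_cast
      ring
    rw [e]
    exact Cg.refl _ _

theorem constantCoeff_un (j : ℕ) : constantCoeff ((un j : (ℤ⟦X⟧)ˣ) : ℤ⟦X⟧) = 1 := by
  by_cases hj : j = 0
  · subst hj
    rw [un_zero, Units.val_one, map_one]
  · rw [un_val hj, cc_one_sub j hj, Units.val_one]

/-- the units with constant coefficient 1 -/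
def U1 : Subgroup (ℤ⟦X⟧)ˣ where
  carrier := {u | constantCoeff (u : ℤ⟦X⟧) = 1}
  one_mem' := by
    show constantCoeff ((1 : (ℤ⟦X⟧)ˣ) : ℤ⟦X⟧) = 1
    rw [Units.val_one, map_one]
  mul_mem' {a b} ha hb := by
    show constantCoeff ((a * b : (ℤ⟦X⟧)ˣ) : ℤ⟦X⟧) = 1
    rw [Units.val_mul, map_mul]
    rw [show constantCoeff (a : ℤ⟦X⟧) = 1 from ha, show constantCoeff (b : ℤ⟦X⟧) = 1 from hb, one_mul]
  inv_mem' {a} ha := by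
    show constantCoeff ((a⁻¹ : (ℤ⟦X⟧)ˣ) : ℤ⟦X⟧) = 1
    have h1 : constantCoeff (((a : ℤ⟦X⟧)) * ((a⁻¹ : (ℤ⟦X⟧)ˣ) : ℤ⟦X⟧)) = 1 := by
      rw [Units.mul_inv, map_one]
    rwa [map_mul, show constantCoeff (a : ℤ⟦X⟧) = 1 from ha, one_mul] at h1

theorem un_mem (j : ℕ) : un j ∈ U1 := constantCoeff_un j

theorem E_mem (e : ℕ →₀ ℤ) : E e ∈ U1 := by
  unfold E
  exact Subgroup.prod_mem _ fun j _ => Subgroup.zpow_mem _ (un_mem j) _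

theorem cc_E (e : ℕ →₀ ℤ) : constantCoeff ((E e : (ℤ⟦X⟧)ˣ) : ℤ⟦X⟧) = 1 := E_mem e

end Pool.Agent.CNS
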