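import Pool.Agent.Helper63_CNS.Exp

/-!
# Supports and the values of the exponents at generators and gaps
-/

set_option autoImplicit false

namespace Pool.Agent.CNS

open PowerSeries

/-- all exponents of `f` are in `T` -/
def SI (T : AddSubmonoid ℕ) (f : ℤ⟦X⟧) : Prop := ∀ n, coeff n f ≠ 0 → n ∈ T

theorem SI.mul {T : AddSubmonoid ℕ} {f g : ℤ⟦X⟧} (hf : SI T f) (hg : SI T g) : SI T (f * g) := by
  intro n hn
  rw [coeff_mul] at hn
  obtain ⟨p, hp, hp2⟩ := Finset.exists_ne_zero_of_sum_ne_zero hn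
  rw [Finset.HasAntidiagonal.mem_antidiagonal] at hp
  rw [← hp]
  exact T.add_mem (hf _ (left_ne_zero_of_mul hp2)) (hg _ (right_ne_zero_of_mul hp2))

theorem SI.one (T : AddSubmonoid ℕ) : SI T 1 := by
  intro n hn
  rw [coeff_one] at hn
  by_cases h : n = 0
  · rw [h]
    exact T.zero_mem
  · rw [if_neg h] at hn
    exact absurd rfl hn

theorem SI.inv {T : AddSubmonoid ℕ} {u : (ℤ⟦X⟧)ˣ} (hu : u ∈ U1) (h : SI T (u : ℤ⟦X⟧)) :
    SI T ((u⁻¹ : (ℤ⟦X⟧)ˣ) : ℤ⟦X⟧) := by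
  intro n
  induction n using Nat.strong_induction_on with
  | _ n ih =>
    intro hn
    by_contra hT
    apply hn
    have hn0 : n ≠ 0 := by
      rintro rfl
      exact hT T.zero_mem
    have h1 : coeff n ((u : ℤ⟦X⟧) * ((u⁻¹ : (ℤ⟦X⟧)ˣ) : ℤ⟦X⟧)) = 0 := by
      rw [Units.mul_inv, coeff_one, if_neg hn0]
    rw [coeff_mul, Finset.sum_eq_single (0, n)] at h1
    · rw [coeff_zero_eq_constantCoeff_apply] at h1
      rwa [show constantCoeff (u : ℤ⟦X⟧) = 1 from hu, one_mul] at h1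
    · rintro ⟨i, j⟩ hp hne
      rw [Finset.HasAntidiagonal.mem_antidiagonal] at hp
      by_contra h2
      have h3 := h _ (left_ne_zero_of_mul h2)
      have hij : i + j = n := hp
      have hi : i ≠ 0 := by
        rintro rfl
        apply hne
        rw [zero_add] at hij
        rw [hij]
      have h4 := ih j (by omega) (right_ne_zero_of_mul h2)
      apply hT
      rw [← hij]
      exact T.add_mem h3 h4
    · intro h2
      exact absurd (Finset.HasAntidiagonal.mem_antidiagonal.2 (zero_add n)) h2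

theorem SI.un {T : AddSubmonoid ℕ} {j : ℕ} (hj : j ∈ T) : SI T ((un j : (ℤ⟦X⟧)ˣ) : ℤ⟦X⟧) := by
  by_cases h0 : j = 0
  · subst h0
    rw [un_zero, Units.val_one]
    exact SI.one T
  · intro n hn
    rw [un_val h0, map_sub, coeff_one, coeff_X_pow] at hn
    by_cases h1 : n = 0
    · rw [h1]
      exact T.zero_mem
    · by_cases h2 : n = j
      · rw [h2]
        exact hj
      · rw [if_neg h1, if_neg h2, sub_zero] at hn
        exact absurd rfl hn

/-- the units with exponents in `T` -/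
def UT (T : AddSubmonoid ℕ) : Subgroup (ℤ⟦X⟧)ˣ where
  carrier := {u | u ∈ U1 ∧ SI T (u : ℤ⟦X⟧)}
  one_mem' := ⟨U1.one_mem, by rw [Units.val_one]; exact SI.one T⟩
  mul_mem' {a b} ha hb := ⟨U1.mul_mem ha.1 hb.1, by rw [Units.val_mul]; exact ha.2.mul hb.2⟩
  inv_mem' {a} ha := ⟨U1.inv_mem ha.1, SI.inv ha.1 ha.2⟩

theorem un_mem_UT {T : AddSubmonoid ℕ} {j : ℕ} (hj : j ∈ T) : un j ∈ UT T := ⟨un_mem j, SI.un hj⟩

/-- the basic comparison in degree `n` -/
theorem coeff_step {f : ℤ⟦X⟧} {e : ℕ → ℤ} (h : IsExp f e) (n : ℕ) (hn : n ≠ 0)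
    (T : AddSubmonoid ℕ) (hT : ∀ j, j ≠ 0 → j < n → e j ≠ 0 → j ∈ T) (hnT : n ∉ T) :
    coeff n f = -e n := by
  obtain ⟨k, rfl⟩ : ∃ k, n = k + 1 := ⟨n - 1, by omega⟩
  rw [isExp_iff] at h
  have h1 := h (k + 1)
  rw [Finset.prod_Icc_succ_top (by omega)] at h1
  obtain ⟨A, hA⟩ : ∃ A, A = ∏ j ∈ Finset.Icc 1 k, un j ^ e j := ⟨_, rfl⟩
  have hAT : A ∈ UT T := by
    rw [hA]
    refine Subgroup.prod_mem _ fun j hj => ?_
    rw [Finset.mem_Icc] at hj
    by_cases h2 : e j = 0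
    · rw [h2, zpow_zero]
      exact Subgroup.one_mem _
    · exact Subgroup.zpow_mem _ (un_mem_UT (hT j (by omega) (by omega) h2)) _
  rw [← hA, Units.val_mul] at h1
  have h2 := h1.trans ((Cg.refl (k + 1 + 1) (A : ℤ⟦X⟧)).mul (un_zpow_cg' hn (e (k + 1))))
  have h3 := h2.coeff (le_refl _)
  rw [h3]
  have e1 : ((e (k + 1) : ℤ) : ℤ⟦X⟧) = C (e (k + 1)) := by simp
  have e2 : (A : ℤ⟦X⟧) * (1 - ((e (k + 1) : ℤ) : ℤ⟦X⟧) * X ^ (k + 1)) =
      (A : ℤ⟦X⟧) - C (e (k + 1)) * ((A : ℤ⟦X⟧) * X ^ (k + 1)) := by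
    rw [e1]
    ring
  have e3 : coeff (k + 1) ((A : ℤ⟦X⟧) * X ^ (k + 1)) = 1 := by
    have h4 := coeff_mul_X_pow (A : ℤ⟦X⟧) (k + 1) 0
    rw [zero_add] at h4
    rw [h4, coeff_zero_eq_constantCoeff_apply]
    exact hAT.1
  have e4 : coeff (k + 1) (A : ℤ⟦X⟧) = 0 := by
    by_contra h4
    exact hnT (hAT.2 _ h4)
  rw [e2, map_sub, coeff_C_mul, e3, e4, mul_one, zero_sub]

variable {S : AddSubmonoid ℕ}

theorem coeff_hil_mem {n : ℕ} (h : n ∈ S) : coeff n (hil S) = 1 := by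
  unfold hil
  rw [coeff_mk, if_pos h]

theorem coeff_hil_nmem {n : ℕ} (h : n ∉ S) : coeff n (hil S) = 0 := by
  unfold hil
  rw [coeff_mk, if_neg h]

/-- no exponents at the gaps -/
theorem exp_gap {e : ℕ → ℤ} (h : IsExp (hil S) e) (n : ℕ) (hn : n ∉ S) : e n = 0 := by
  induction n using Nat.strong_induction_on with
  | _ n ih =>
    have hn0 : n ≠ 0 := by
      rintro rfl
      exact hn S.zero_mem
    have h1 := coeff_step h n hn0 S (fun j _ hjn hj => by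
      by_contra h2
      exact hj (ih j hjn h2)) hn
    rw [coeff_hil_nmem hn] at h1
    omega

/-- the elements of `S` different from the generator `a` -/
def remA (S : AddSubmonoid ℕ) (a : ℕ) (ha : a ∈ atoms S) : AddSubmonoid ℕ where
  carrier := {s | s ∈ S ∧ s ≠ a}
  zero_mem' := ⟨S.zero_mem, fun h => ha.2.1 h.symm⟩
  add_mem' {x y} hx hy := ⟨S.add_mem hx.1 hy.1, fun h => by
    rcases ha.2.2 x hx.1 y hy.1 h with h1 | h1
    · rw [h1, zero_add] at h
      exact hy.2 h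
    · rw [h1, add_zero] at h
      exact hx.2 h⟩

theorem exp_atom {e : ℕ → ℤ} (h : IsExp (hil S) e) (a : ℕ) (ha : a ∈ atoms S) : e a = -1 := by
  have h1 := coeff_step h a ha.2.1 (remA S a ha) (fun j _ hjn hj => by
    refine ⟨?_, by omega⟩
    by_contra h2
    exact hj (exp_gap h j h2)) (fun h2 => h2.2 rfl)
  rw [coeff_hil_mem ha.1] at h1
  omega

end Pool.Agent.CNS
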